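import Pool.Agent.Helper70.MM.Om

/-!
Project MM (MP_91ee6f_gt, maximising measures on balls and cubes, all dimensions).
Each `def NAME : Prop` is a goal; its docstring contains the complete proof.
`potential ν x = ∫ exp (-dist x y) dν(y)`; `U ν j x = ∫ om j (dist x y) dν(y)`, `U ν 0 = potential ν`.
-/

open MeasureTheory Set Metric
open scoped ENNReal RealInnerProductSpace Topology
open Pool.Agent.Results.MP_91ee6f_gt

namespace Pool.Agent.Helper70.MM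

/-- Potential of `ν` with the kernel `ω_j`. -/
noncomputable def U {n : ℕ} (ν : Measure (En n)) (j : ℕ) (x : En n) : ℝ :=
  ∫ y, om j (dist x y) ∂ν

/-! ### General facts on maximising measures of compact subsets of `ℝⁿ` -/

/-- Criterion.  PROOF: exactly as `Pool.Agent.Helper67.MaxMeas.criterion'` (file
Helper67/MaxMeas/Main.lean, there for balls of `E3`), with the closed ball replaced by a compact
set `X` and `E3` by `En n`: `w.comap Subtype.val`, `isMaximising_of_kkt` (Div.lean),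
`bil_sub_nonneg`, `eq_of_bil_sub_eq_zero` (PD.lean, general `E`), `bilX_subtype`,
`potential_subtype`, `mem_support_subtype`. -/
def CRIT : Prop := ∀ (n : ℕ) (X : Set (En n)), IsCompact X → ∀ w : Measure (En n),
  IsProbabilityMeasure w → w Xᶜ = 0 → ∀ c : ℝ, 0 < c → (∀ x ∈ X, c ≤ potential w x) →
  (∀ x ∈ w.support, potential w x = c) →
  ∃ μ : Measure X, inEn μ = w ∧ IsMaximising μ ∧ (∀ q : ℝ≥0∞, diversity q μ = c⁻¹) ∧
    ∀ ν : Measure X, IsMaximising ν → ν = μ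

/-- Existence, uniqueness and the Kuhn-Tucker conditions for the maximising measure.
PROOF.  `ProbabilityMeasure X` is compact (instance in Mathlib/MeasureTheory/Measure/Prokhorov)
and nonempty, the energy `μ ↦ ∫ exp(-dist p.1 p.2) d(μ×μ)` is continuous
(`ProbabilityMeasure.continuous_prod`, bounded continuous kernel), so there is a minimiser `μ`;
let `c > 0` be its energy.  For `x ∈ X` and `0 ≤ t ≤ 1` the measure `(1-t) μ + t δ_x` is a
probability measure of energy `(1-t)² c + 2 t (1-t) Kμ(x) + t² ≥ c`; divide by `t` and let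
`t → 0`: `Kμ(x) ≥ c`.  Since `∫ Kμ dμ = c` and `Kμ ≥ c` is continuous, `Kμ = c` on the support.
Now `isMaximising_of_kkt` (or `CRIT`) applied to `μ` gives everything. -/
def EXMAX : Prop := ∀ (n : ℕ) (X : Set (En n)), IsCompact X → X.Nonempty →
  ∃ (μ : Measure X) (c : ℝ), 0 < c ∧ IsMaximising μ ∧ (∀ q : ℝ≥0∞, diversity q μ = c⁻¹) ∧
    (∀ ν : Measure X, IsMaximising ν → ν = μ) ∧ (∀ x ∈ X, c ≤ potential (inEn μ) x) ∧
    (∀ x ∈ (inEn μ).support, potential (inEn μ) x = c)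

/-- The singular energy inequality.  For `k ≤ 1` it is trivial (`(k:ℝ≥0∞) - 1 = 0`).
PROOF for `k ≥ 2`.  For `0 < t < 1` small put
`S_t(y) = ∑ i (e^{-|p+t v_i-y|} + e^{-|p-t v_i-y|} - 2 e^{-|p-y|}) / t²`; by hypothesis
`∫ S_t dν ≥ 0`.  With `z = p - y`, `a = |z + t v|`, `b = |z - t v|` (`|v| = 1`): `a+b ≥ 2|z|`,
`|a-b| ≤ 2t`, so `e^{-a}+e^{-b} = 2 e^{-(a+b)/2} cosh((a-b)/2) ≤ 2 e^{-|z|} cosh t`, hence
`S_t ≤ 2k (cosh t - 1)/t² ≤ 2k =: C` for `t ≤ 1`.  Pointwise limit as `t → 0`: for `z ≠ 0` the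
second derivative of `t ↦ e^{-|z+tv|}` at `0` is `e^{-s}(c²(1+1/s) - 1/s)`, `s = |z|`,
`c = ⟪z,v⟫/s`, and `∑ c_i² ≤ 1` (Bessel), so `lim S_t ≤ e^{-s}(1 - (k-1)/s)`; for `z = 0`,
`S_t = 2k (e^{-t}-1)/t² → -∞`.  Fatou for `C - S_t ≥ 0` (along `t = 1/m`):
`∫⁻ (C - e^{-s} + (k-1)e^{-s}/s) dν ≤ C ν(univ)` with integrand `∞` at `y = p`, which is the
claim (`e^{-s}/edist = ∞` at `y = p`). -/
def SING : Prop := ∀ (n k : ℕ) (ν : Measure (En n)), IsFiniteMeasure ν → ∀ (p : En n)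
  (v : Fin k → En n), Orthonormal ℝ v →
  (∃ δ > 0, ∀ t : ℝ, |t| < δ → ∀ i, potential ν p ≤ potential ν (p + t • v i)) →
  ((k : ℝ≥0∞) - 1) * ∫⁻ y, ENNReal.ofReal (Real.exp (-dist p y)) / edist p y ∂ν ≤
    ∫⁻ y, ENNReal.ofReal (Real.exp (-dist p y)) ∂ν

/-- Sets of sigma-finite length carry no mass.
PROOF.  Enough: `μH[1] A < ∞` (replace `A` by `A ∩ T i`, countable union).  Also
`ν (ν.supportᶜ) = 0`, so let `A' = A ∩ ν.support`.  For `p ∈ A'` the integral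
`∫⁻ (edist p y)⁻¹ dν(y)` is finite, so `ν {p} = 0` and
`I_r(p) = ∫⁻ y in closedBall p r, (edist p y)⁻¹ dν → 0` as `r → 0` (dominated convergence /
continuity from above).  Fix `η > 0` real and put `A_m = {p ∈ A' | I_{1/(m+1)}(p) ≤ η}`: an
increasing sequence with union `A'`.  By `hausdorffMeasure_apply` there are sets `t_i` covering
`A_m` with `diam t_i ≤ 1/(m+1)` and `∑ diam t_i ≤ μH[1] A + 1`.  If `t_i` meets `A_m` in `p_i`,
then `ν(t_i) ≤ ∫⁻ y in t_i, diam t_i * (edist p_i y)⁻¹ dν ≤ diam t_i * η` (as `edist p_i y ≤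
diam t_i` on `t_i`; the point `p_i` itself is null; if `diam t_i = 0` then `t_i = {p_i}` is
null; all for outer measures, or replace `t_i` by its closure, which has the same diameter).
So `ν(A_m) ≤ η (μH[1] A + 1)`, `ν(A') = lim ν(A_m)` (`Monotone.measure_iUnion`, no
measurability needed) `≤ η (μH[1] A + 1)` for all `η`. -/
def HAUS : Prop := ∀ (n : ℕ) (ν : Measure (En n)), IsFiniteMeasure ν → ∀ A : Set (En n),
  SigmaFiniteLength A → (∀ p ∈ A, p ∈ ν.support → ∫⁻ y, (edist p y)⁻¹ ∂ν < ∞) → ν A = 0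

/-- The support is relatively dense.  PROOF.  `c = ∫ potential w dw` since `potential w = c` on
the support.  Make the cells disjoint (`disjointed`) to get measurable `D_i`, `∑ w(D_i) = 1`;
then `c = ∬ e^{-|x-y|} ≥ ∑ e^{-δ} w(D_i)² ≥ e^{-δ}/N` (Cauchy-Schwarz).  For `x ∈ X` let `y` be a
nearest point of the closed nonempty set `w.support` (proper space); then
`c ≤ potential w x = ∫ e^{-dist x z} dw(z) ≤ e^{-dist x y}` so
`dist x y ≤ - log c ≤ δ + log N`. -/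
def DENS : Prop := ∀ (n N : ℕ) (X : Set (En n)) (w : Measure (En n)), IsProbabilityMeasure w →
  w Xᶜ = 0 → ∀ c : ℝ, (∀ x ∈ X, c ≤ potential w x) → (∀ x ∈ w.support, potential w x = c) →
  ∀ (δ : ℝ) (C : Fin N → Set (En n)), X ⊆ ⋃ i, C i → (∀ i, MeasurableSet (C i)) →
  (∀ i, ∀ x ∈ C i, ∀ y ∈ C i, dist x y ≤ δ) →
  Real.exp (-δ) / N ≤ c ∧ ∀ x ∈ X, ∃ y ∈ w.support, dist x y ≤ δ + Real.log N

/-- A box is covered by few cells of diameter at most `1`.  PROOF (`n ≥ 1`): cells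
`{x | ∀ i, ⌊(x i - a) √n⌋ = k i}`, `k i ∈ {0,…,⌊L √n⌋}`, of side `1/√n`, so of diameter
`≤ 1`; their number is `(⌊L√n⌋+1)^n`.  (`n = 0`: one cell.) -/
def BOX : Prop := ∀ (n : ℕ) (a L : ℝ), 0 ≤ L → ∃ (N : ℕ) (C : Fin N → Set (En n)), 0 < N ∧
  {x : En n | ∀ i, a ≤ x i ∧ x i ≤ a + L} ⊆ ⋃ i, C i ∧ (∀ i, MeasurableSet (C i)) ∧
  (∀ i, ∀ x ∈ C i, ∀ y ∈ C i, dist x y ≤ 1) ∧ (N : ℝ) ≤ (1 + Real.sqrt n * L) ^ n

/-! ### The uniform measure on the sphere -/

/-- PROOF: as for `E3` in Helper67/MaxMeas/Main.lean (`isProb_sphereUnif`,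
`support_sphereUnif`), using `Measure.toSphere_ne_zero`, `toSphere` open-positive. -/
def SPH1 : Prop := ∀ (n : ℕ), 1 ≤ n → ∀ s : ℝ, IsProbabilityMeasure (sphUnif n s) ∧
  (0 ≤ s → ∀ᵐ y ∂(sphUnif n s), ‖y‖ = s) ∧ (0 < s → (sphUnif n s).support = sphere 0 s)

/-- Rotation invariance and scaling.  PROOF of the first part: for measurable `A`, by
`Measure.toSphere_apply'`, `toSphere (g⁻¹ A) = n * volume (Ioo 0 1 • coe '' (g⁻¹ A))` and
`Ioo 0 1 • (g⁻¹ A) = g⁻¹ (Ioo 0 1 • A)`, `g` preserves volume (`LinearIsometryEquiv.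
measurePreserving`); `g` commutes with `θ ↦ s θ`. -/
def SPH2 : Prop := ∀ (n : ℕ) (s : ℝ),
  (∀ g : En n ≃ₗᵢ[ℝ] En n, (sphUnif n s).map g = sphUnif n s) ∧
  (∀ t : ℝ, (sphUnif n s).map (fun x => t • x) = sphUnif n (t * s))

/-- Measure of a cap.  PROOF: by `toSphere_apply'` the normalised measure of
`A = {θ | dist x θ ≤ 1/2}` is `volume (Ioo 0 1 • A) / volume (ball 0 1)`, and
`Ioo 0 1 • A ⊇ ball ((4/5) x) (1/5)` (for `|z - (4/5)x| < 1/5`: `3/5 < |z| < 1` and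
`|z/|z| - x| ≤ |z/|z| - z/(4/5)| + |z/(4/5) - x| ≤ 1/4 + 1/4`), whose volume is
`(1/5)^n volume (ball 0 1)`. -/
def SPH4 : Prop := ∀ (n : ℕ), 1 ≤ n → ∀ x : En n, ‖x‖ = 1 →
  ENNReal.ofReal ((1 / 5 : ℝ) ^ n) ≤ (sphUnif n 1) (closedBall x (1 / 2))

/-! ### Differentiation of the potentials -/

/-- First and second directional derivatives.  PROOF: differentiation under the integral sign
(`hasDerivAt_integral_of_dominated_loc_of_deriv_le`); with `ρ(t) = |x + t e - y| ≥ δ/2` for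
`|t| ≤ δ/2` (a.e. `y`): `d/dt om j (ρ) = - ρ om (j+1) ρ * (⟪x+te-y,e⟫/ρ) = - om (j+1) ρ *
⟪x+te-y,e⟫` (`om_hasDerivAt`), bounded by `ρ om (j+1) ρ ≤ ` const because
`s² om (j+2) s = om j s + (2j+1) om (j+1) s` and `om` is positive and decreasing (`om_le`):
all of `om j`, `s om (j+1)`, `s² om (j+2)` are bounded on `[δ/2, ∞)`.  Second derivative:
`d/dt(- om (j+1) ρ ⟪x+te-y,e⟫) = om (j+2) ρ ⟪x+te-y,e⟫² - om (j+1) ρ |e|²`. -/
def UD : Prop := ∀ (n j : ℕ) (ν : Measure (En n)), IsFiniteMeasure ν → ∀ (x e : En n) (δ : ℝ),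
  0 < δ → ‖e‖ = 1 → (∀ᵐ y ∂ν, δ ≤ dist x y) →
  Integrable (fun y => om j (dist x y)) ν ∧
  Integrable (fun y => om (j + 1) (dist x y)) ν ∧
  Integrable (fun y => om (j + 2) (dist x y) * (inner ℝ (x - y) e) ^ 2) ν ∧
  (∀ t : ℝ, |t| < δ / 2 → HasDerivAt (fun t : ℝ => U ν j (x + t • e))
    (-∫ y, om (j + 1) (dist (x + t • e) y) * inner ℝ (x + t • e - y) e ∂ν) t) ∧
  HasDerivAt (fun t : ℝ => -∫ y, om (j + 1) (dist (x + t • e) y) * inner ℝ (x + t • e - y) e ∂ν)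
    (∫ y, (om (j + 2) (dist x y) * (inner ℝ (x - y) e) ^ 2 - om (j + 1) (dist x y)) ∂ν) 0

/-- At a local maximum the Laplacian is nonpositive, at a local minimum nonnegative.
PROOF: for a unit vector `e` the function `φ(t) = U ν j (x + t e)` has a local maximum at `0`,
is differentiable near `0` with derivative `φ'`, `φ'(0) = 0`, and `φ''(0) ≤ 0` (if
`φ''(0) > 0`, then `φ' > 0` on `(0,ε)` so `φ` is strictly increasing there).  Sum over the
standard orthonormal basis: `∑ ⟪x-y,e_i⟫² = dist x y ^ 2`, so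
`0 ≥ ∫ (om (j+2) s * s² - n om (j+1) s) = U ν j x + (2j+1-n) U ν (j+1) x`. -/
def ULOC : Prop := ∀ (n j : ℕ) (ν : Measure (En n)), IsFiniteMeasure ν → ∀ (x : En n) (δ : ℝ),
  0 < δ → (∀ᵐ y ∂ν, δ ≤ dist x y) →
  (IsLocalMax (U ν j) x → U ν j x ≤ ((n : ℝ) - 1 - 2 * j) * U ν (j + 1) x) ∧
  (IsLocalMin (U ν j) x → ((n : ℝ) - 1 - 2 * j) * U ν (j + 1) x ≤ U ν j x)

/-- The potentials of `σ_R` inside the ball: positive, radial, continuous; and if `U j` along a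
radius is maximal on `[r0,c]` at the right end `c`, then the left derivative is `≥ 0`.
PROOF.  Positivity: `om_pos`, integrand bounded below by `om j (2R) > 0`.  Radial: if
`‖x‖ = ‖x'‖` the reflection `g` in the hyperplane orthogonal to `x - x'` maps `x` to `x'`
(`reflection_sub`), `dist (g x) y = dist x (g⁻¹ y)` and `SPH2`.  Continuity: dominated
convergence (`dist x y ≥ R - ‖x‖`).  Last part: by `UD` with `x = c e`, the derivative of
`r ↦ U j (r e)` at `c` is `-∫ om (j+1) (dist x y) ⟪x-y,e⟫`, and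
`2c ⟪x-y,e⟫ = 2⟪x-y,x⟫ = dist x y ^2 + c² - R²` for `‖y‖ = R`; the derivative is `≥ 0`
because the difference quotients from the left are `≥ 0`.  So
`∫ dist² om (j+1) ≤ (R² - c²) U (j+1)`, while `om (j+1)` is decreasing, `dist ≤ 2R` and
`∫ dist x y ^ 2 dσ_R(y) = R² + c² ≥ R²` (`∫ ⟪x,y⟫ dσ_R(y) = 0` by `y ↦ -y`). -/
def URAD : Prop := ∀ (n : ℕ), 1 ≤ n → ∀ R : ℝ, 0 < R → ∀ j : ℕ,
  (∀ x : En n, ‖x‖ < R → 0 < U (sphUnif n R) j x) ∧
  (∀ x x' : En n, ‖x‖ < R → ‖x‖ = ‖x'‖ → U (sphUnif n R) j x = U (sphUnif n R) j x') ∧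
  ContinuousOn (U (sphUnif n R) j) (ball 0 R) ∧
  (∀ (e : En n) (r0 c : ℝ), ‖e‖ = 1 → 0 ≤ r0 → r0 < c → c < R →
    (∀ r ∈ Icc r0 c, U (sphUnif n R) j (r • e) ≤ U (sphUnif n R) j (c • e)) →
    R ^ 2 * om (j + 1) (2 * R) ≤ (R ^ 2 - c ^ 2) * U (sphUnif n R) (j + 1) (c • e))

/-- quasi-concavity on `[0,R)` -/
def QC (R : ℝ) (F : ℝ → ℝ) : Prop :=
  ∀ a b c : ℝ, 0 ≤ a → a ≤ b → b ≤ c → c < R → min (F a) (F c) ≤ F b

/-- `r` is a local maximum of `F` relative to `[0,R)` -/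
def LMax (R : ℝ) (F : ℝ → ℝ) (r : ℝ) : Prop :=
  ∃ ε > 0, ∀ s : ℝ, 0 ≤ s → s < R → |s - r| < ε → F s ≤ F r

/-- The abstract induction step.
PROOF.  Suppose `a ≤ b ≤ c < R` and `F b < min (F a) (F c)`; so `a < b < c`.  Let `r0` be a
point of `[a,c]` where `F` is minimal: `F r0 ≤ F b`, so `a < r0 < c`, and `r0` is a local
minimum: `κ G r0 ≤ F r0`.  Let `r1` be a point of `[0,r0]` where `F` is maximal:
`F r1 ≥ F a > F r0` so `r1 < r0`, `r1` is a local maximum, `F r1 ≤ κ G r1`.  Hence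
`G r1 > G r0` (`κ > 0`).  By `QC R G`: `G r ≤ G r0` for `r0 ≤ r < R`.  Let `c < c' < R` and let
`r2` be a point of `[r0,c']` where `F` is maximal: `F r2 ≥ F c > F r0`.  If `r2 < c'`
then (`r2 > r0`) it is a local maximum and `F r2 ≤ κ G r2 ≤ κ G r0 ≤ F r0 < F r2`,
contradiction.  So `F r ≤ F c'` on `[r0,c']`, and the last hypothesis gives
`A ≤ (R² - c'²) G c' ≤ (R² - c'²) G r0` for all `c' ∈ (c,R)`; let `c' → R`: `A ≤ 0`,
contradiction. -/
def QCSTEP : Prop := ∀ (R κ A : ℝ) (F G : ℝ → ℝ), 0 < R → 0 < κ → 0 < A →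
  ContinuousOn F (Ico 0 R) → QC R G →
  (∀ r : ℝ, 0 ≤ r → r < R → LMax R F r → F r ≤ κ * G r) →
  (∀ r : ℝ, 0 ≤ r → r < R → LMax R (fun s => -F s) r → κ * G r ≤ F r) →
  (∀ r0 c : ℝ, 0 ≤ r0 → r0 < c → c < R → (∀ r ∈ Icc r0 c, F r ≤ F c) →
    A ≤ (R ^ 2 - c ^ 2) * G c) → QC R F

/-- Quasi-concavity of all the potentials `r ↦ U (sphUnif n R) j (r e)`, `0 ≤ r < R`.
PROOF.  Write `w j r = U (sphUnif n R) j (r • e)`; by `URAD` `U j x = w j ‖x‖`, so a local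
maximum `r` of `w j` (relative to `[0,R)`, `LMax`) gives a local maximum `r • e` of
`U (sphUnif n R) j` (points near `r • e` have norm near `r` and `< R`), and `ULOC` applies with
`δ = R - r` (`SPH1`).  Descending induction on `j`.
If `n - 1 - 2j ≤ 0` then `w j` is nondecreasing: if `a < b` and `w j a > w j b`, take a maximum
`r1` of `w j` on `[0,b]`; `r1 < b`, so `r1` is a local maximum and `0 < w j r1 ≤
(n-1-2j) w (j+1) r1 ≤ 0`, contradiction; nondecreasing implies `QC`.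
If `n - 1 - 2j > 0`, use `QCSTEP` with `F = w j`, `G = w (j+1)`, `κ = n-1-2j`,
`A = R² om (j+1) (2R)`, `QC` of `w (j+1)` from the induction and the last part of `URAD`. -/
def QCALL : Prop := ∀ (n : ℕ), 1 ≤ n → ∀ R : ℝ, 0 < R → ∀ (j : ℕ) (e : En n), ‖e‖ = 1 →
  QC R (fun r => U (sphUnif n R) j (r • e))

/-- The potential of `σ_R`: value at the centre, on the sphere, and minimum principle.
PROOF.  `potential (sphUnif n R) 0 = ∫ e^{-‖y‖} = e^{-R}`.  The potential is radial (`URAD`-type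
argument with `SPH2`, for all `x`), so constant on the sphere, equal to its mean
`sphEnergy n R`.  By `QCALL` with `j = 0`, for `0 ≤ r ≤ c < R`:
`min (P 0) (P (c e)) ≤ P (r e)`; let `c → R` (the potential is continuous). -/
def MINP : Prop := ∀ (n : ℕ), 1 ≤ n → ∀ R : ℝ, 0 < R →
  potential (sphUnif n R) 0 = Real.exp (-R) ∧
  (∀ x : En n, ‖x‖ = R → potential (sphUnif n R) x = sphEnergy n R) ∧
  (∀ x x' : En n, ‖x‖ = ‖x'‖ → potential (sphUnif n R) x = potential (sphUnif n R) x') ∧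
  (∀ x : En n, ‖x‖ ≤ R → min (Real.exp (-R)) (sphEnergy n R) ≤ potential (sphUnif n R) x)

/-! ### The threshold -/

/-- PROOF.  With `e` a unit vector, `sphEnergy n R = ∫ Z(θ)^R dσ_1(θ)`, `Z(θ) = e^{-|e-θ|}`
(scaling, `MINP`), so by Jensen (`x ↦ x^{R/R₁}` is concave):
`sphEnergy n R ≤ (sphEnergy n R₁)^{R/R₁} ≤ e^{-R}`. -/
def TH1 : Prop := ∀ (n : ℕ), 1 ≤ n → ∀ R R₁ : ℝ, 0 < R → R ≤ R₁ →
  sphEnergy n R₁ ≤ Real.exp (-R₁) → sphEnergy n R ≤ Real.exp (-R)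

/-- PROOF.  Let `N = n-1 ≥ 1`, `κ = e^{-N}/(2N²)`.  For `t > 0`:
`(N-t)e^{-t}/t ≥ κ (N-t)(N+t)` (both factors `e^{-t}/t - κ(N+t)` and `N-t` have the same sign
since `e^{-t}/t` decreases, `κ(N+t)` increases and they agree at `t = N`).  So for
`‖x‖ < R ≤ N/√2`: `(n-1) U 1 x - U 0 x ≥ κ ∫ (N² - dist²) dσ_R = κ(N² - R² - ‖x‖²) > 0`
(`∫⟪x,y⟫ = 0` by symmetry).  If `P(0) < P(R e)`, take a minimum `r0` of `r ↦ P(r e)` on
`[0,R]`; `r0 < R`, so (radial) a local minimum of `U 0` in the ball and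
`(n-1) U 1 ≤ U 0` there (`ULOC`), contradiction.  So `sphEnergy n R = P(Re) ≤ P(0) = e^{-R}`. -/
def TH2 : Prop := ∀ (n : ℕ), 2 ≤ n → ∀ R : ℝ, 0 < R → R ≤ ((n : ℝ) - 1) / Real.sqrt 2 →
  sphEnergy n R ≤ Real.exp (-R)

/-- PROOF.  By `SPH4` and scaling, for `‖x‖ = R`: `sphEnergy n R = potential (sphUnif n R) x ≥
e^{-R/2} (1/5)^n > e^{-R}` if `R > 2 n log 5`. -/
def TH3 : Prop := ∀ (n : ℕ), 1 ≤ n → ∀ R : ℝ, 2 * n * Real.log 5 < R →
  Real.exp (-R) < sphEnergy n R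

/-- PROOF: `sphEnergy n R = ∫ e^{-R |e-θ|} dσ_1(θ)` for `R > 0`; dominated convergence. -/
def TH4 : Prop := ∀ (n : ℕ), 1 ≤ n → ContinuousOn (sphEnergy n) (Ioi 0)

/-- The threshold.  PROOF: `Rc = sup {R > 0 | sphEnergy n R ≤ e^{-R}}`; nonempty by `TH2`,
bounded by `TH3`, an initial interval by `TH1`, closed by `TH4`. -/
def THR : Prop := ∀ (n : ℕ), 2 ≤ n → ∃ Rc : ℝ, ((n : ℝ) - 1) / Real.sqrt 2 ≤ Rc ∧
  Rc ≤ 2 * n * Real.log 5 ∧ ∀ R : ℝ, 0 < R → (sphEnergy n R ≤ Real.exp (-R) ↔ R ≤ Rc)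

/-! ### The maximising measure on a ball -/

/-- Symmetry of the maximising measure of a ball.  PROOF.  `g` restricts to an isometry `g'` of
`closedBall 0 R`; diversities are invariant, `IsMaximising (μ.map g')`, so `μ.map g' = μ` by
uniqueness (`EXMAX`).  (`potential (μ.map g') (g' x) = potential μ x`, support maps to
support.)  Alternatively use the energy: `w.map g` satisfies the Kuhn-Tucker conditions of
`EXMAX`, hence `CRIT` gives a maximising measure `μ'` with `inEn μ' = (inEn μ).map g`, and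
uniqueness gives `μ' = μ`. -/
def ROT : Prop := ∀ (n : ℕ) (R : ℝ), 0 < R → ∀ μ : Measure (closedBall (0 : En n) R),
  IsMaximising μ → ∀ g : En n ≃ₗᵢ[ℝ] En n, (inEn μ).map g = inEn μ

/-- A rotation invariant probability measure on the sphere is `σ_R`.  PROOF: with
`E(μ,ν) = bil μ ν` (Helper67/MaxMeas/PD.lean), `potential w` and `potential σ_R` are radial,
hence constant on the sphere `= c₁, c₂`; so
`bil w w - bil w σ - bil σ w + bil σ σ = c₁ - c₁ - c₂ + c₂ = 0` (`bil w σ = ∫ potential σ dw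
= c₂`, `bil σ w = c₁`), and `eq_of_bil_sub_eq_zero` gives `w = σ_R`. -/
def SPHU : Prop := ∀ (n : ℕ), 1 ≤ n → ∀ (R : ℝ), 0 < R → ∀ w : Measure (En n),
  IsProbabilityMeasure w → w (sphere 0 R)ᶜ = 0 →
  (∀ g : En n ≃ₗᵢ[ℝ] En n, w.map g = w) → w = sphUnif n R

/-- The support of a rotation invariant measure satisfying the Kuhn-Tucker conditions contains
the boundary sphere.  PROOF.  The support `S` is closed, nonempty, rotation invariant, contained
in the closed ball.  Let `p ∈ S` have maximal norm `r ≤ R`.  If `r = R`, rotation invariance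
gives the whole sphere (reflections act transitively).  If `r = 0` then `w = δ_0` and
`potential w x = e^{-‖x‖} < 1 = c` for `‖x‖ = R`.  If `0 < r < R`, let `p' = (R/r) p`; for
`y ∈ S`: `|p'-y|² - |p-y|² = R² - r² - 2((R/r) - 1)⟪p,y⟫ ≥ (R² - r²) - 2 (R - r) r =
(R-r)² > 0`, so `potential w p' < potential w p = c`, contradiction to `c ≤ potential w p'`. -/
def BDRY : Prop := ∀ (n : ℕ), 1 ≤ n → ∀ (R : ℝ), 0 < R → ∀ w : Measure (En n),
  IsProbabilityMeasure w → w (closedBall 0 R)ᶜ = 0 →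
  (∀ g : En n ≃ₗᵢ[ℝ] En n, w.map g = w) → ∀ c : ℝ,
  (∀ x ∈ closedBall (0 : En n) R, c ≤ potential w x) →
  (∀ x ∈ w.support, potential w x = c) → sphere (0 : En n) R ⊆ w.support

/-- A sphere in the plane has finite length (`n = 2`; also `R = 0`, a point).  PROOF: it is the
image of `[0,2π]` under the Lipschitz map `t ↦ (R cos t, R sin t)`
(`LipschitzWith.hausdorffMeasure_image_le`, `hausdorffMeasure_real`). -/
def CIRC : Prop := ∀ R : ℝ, μH[1] (sphere (0 : En 2) R) < ∞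

end Pool.Agent.Helper70.MM
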