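import Pool.Agent.Helper70.MM.Goals2

/-!
Project MM, fourth part: the circle.  Each `def NAME : Prop` is a goal; its docstring contains
the complete proof.
-/

open MeasureTheory Set Metric
open scoped ENNReal RealInnerProductSpace Topology
open Pool.Agent.Results.MP_91ee6f_gt

namespace Pool.Agent.Helper70.MM

/-- The energy of the uniform measure on the circle.
PROOF.  Let `P(θ) = R (cos θ, sin θ) ∈ En 2` and
`w = ofReal (1/(2π)) • (volume.restrict (Ioc (-π) π)).map P`, a probability measure concentrated on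
the circle `‖x‖ = R`.  `dist (P φ) (P θ) = 2R |sin((θ-φ)/2)|`, so for every `φ`
`potential w (P φ) = (1/(2π)) ∫_{-π}^{π} e^{-2R|sin((θ-φ)/2)|} dθ = (1/(2π)) ∫_{-π}^{π}
e^{-2R|sin(θ/2)|} dθ` (periodicity, `Function.Periodic.intervalIntegral_add_eq`) `=
(1/π) ∫_0^π e^{-2R sin(θ/2)} dθ = (2/π) ∫_0^{π/2} e^{-2R sin t} dt =: κ`; every point of the circle is
some `P φ`.  By Fubini (`bil` is symmetric for finite measures)
`κ = ∫ potential w dσ_R = ∫ potential σ_R dw = sphEnergy 2 R`, as `potential σ_R = sphEnergy 2 R` on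
the circle (`MINP`) and both measures live on the circle (`SPH1`). -/
def CFORM : Prop := ∀ R : ℝ, 0 < R →
  sphEnergy 2 R = (2 / Real.pi) * ∫ t in (0 : ℝ)..(Real.pi / 2), Real.exp (-(2 * R * Real.sin t))

/-- PROOF from `CFORM`.  `sin t ≤ t`, so `sphEnergy 2 R ≥ (2/π) ∫_0^{π/2} e^{-2Rt} dt =
(1 - e^{-πR})/(πR)`, and for `R = 17/10`: `π R < 5.341`, `e^{-πR} < 0.005` (`e^{5.3} > 200`),
`e^{1.7} > 5.47` (`e^{17} > 5.47^{10}`), `5.47 * 0.995 > 5.341`. -/
def CNUM : Prop := Real.exp (-(17 / 10)) < sphEnergy 2 (17 / 10)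

end Pool.Agent.Helper70.MM
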