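import Pool.Agent.Helper70.MM.Goals2

/-!
Project MM, third part: cubes `[0,ℓ]ⁿ`, `ℓ ≤ 1`, and reduction of the minimum of `PV` on the cube to
the edges (all `n`, all `ℓ`).  Each `def NAME : Prop` is a goal; its docstring contains the
complete proof.
-/

open MeasureTheory Set Metric
open scoped ENNReal RealInnerProductSpace Topology
open Pool.Agent.Results.MP_91ee6f_gt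

namespace Pool.Agent.Helper70.MM

/-- `s_n(ℓ) = ∑_{m < n} C(n-1,m) e^{-√(m+1) ℓ}/√(m+1)` -/
noncomputable def sl (n : ℕ) (ℓ : ℝ) : ℝ :=
  ∑ m ∈ Finset.range n, ((n - 1).choose m : ℝ) *
    (Real.exp (-(Real.sqrt (m + 1) * ℓ)) / Real.sqrt (m + 1))

/-- `R_λ(t) = (e^{-λt²} + e^{-λ(ℓ-t)²})/(1 + e^{-λℓ²})` -/
noncomputable def RR (ℓ lam t : ℝ) : ℝ :=
  (Real.exp (-(lam * t ^ 2)) + Real.exp (-(lam * (ℓ - t) ^ 2))) /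
    (1 + Real.exp (-(lam * ℓ ^ 2)))

/-- Single crossing.  PROOF.  Put `a = ℓ²/2`, `b = b_t = ℓ(ℓ-2t)/2 ∈ [0,a)`,
`ψ_t(λ) = -log R_λ(t) = -t(ℓ-t)λ + log cosh(aλ) - log cosh(bλ)` (write
`1 + e^{-2aλ} = 2e^{-aλ}cosh(aλ)` and `e^{-λt²}+e^{-λ(ℓ-t)²} = 2e^{-λ(t²+(ℓ-t)²)/2}cosh(bλ)`, and
`a - (t²+(ℓ-t)²)/2 = t(ℓ-t)`).  `ψ_t(0) = 0`,
`ψ_t'(λ) = -t(ℓ-t) + a tanh(aλ) - b tanh(bλ)`, `ψ_t'(0) = -t(ℓ-t) < 0`, `ψ_t'(λ) → a-b-t(ℓ-t) =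
t² > 0` as `λ → ∞`, and `ψ_t'' = a²/cosh²(aλ) - b²/cosh²(bλ)` is `≥ 0` exactly while
`a cosh(bλ) ≥ b cosh(aλ)`, i.e. on an initial interval (`cosh(aλ)/cosh(bλ)` increases).  So
`ψ_t'` first increases and then decreases to its limit `t² > 0`; hence there is `Λ_t > 0` with
`ψ_t' < 0` on `[0,Λ_t)` and `ψ_t' > 0` on `(Λ_t,∞)`: `ψ_t` decreases on `[0,Λ_t]` and increases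
(to `+∞`) on `[Λ_t,∞)`.  Let `Λ > Λ_s` be the zero of `ψ_s` there: `ψ_s ≤ 0` on `[0,Λ]`,
`ψ_s ≥ 0` on `[Λ,∞)`.  Let `s ≤ t ≤ ℓ/2`.  CLAIM `ψ_t(Λ) ≥ 0`.  With
`θ(τ) = e^{-Λτ²} + e^{-Λ(ℓ-τ)²}` this says `θ(t) ≤ θ(0)`; we have `θ(s) = θ(0)`.  With
`τ = ℓ(1-y)/2`, `θ'(τ) ≥ 0` iff `log((ℓ-τ)/τ) ≥ Λℓ(ℓ-2τ)` iff `log((1+y)/(1-y)) ≥ Λℓ²y`, and
`log((1+y)/(1-y))/y` is increasing in `y ∈ (0,1)`; so `θ` is strictly increasing on `[0,τ₀]` and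
strictly decreasing on `[τ₀,ℓ/2]` for some `τ₀ ∈ (0, ℓ/2]`; `θ(s) = θ(0)` forces `s > τ₀`, so
`θ(t) ≤ θ(s) = θ(0)`.  Given the claim: `ψ_t(Λ) ≥ 0 > ψ_t(Λ_t)` gives `Λ > Λ_t`, so for
`λ ≥ Λ`: `ψ_t(λ) ≥ ψ_t(Λ)`; and for `0 ≤ λ ≤ Λ`: `ψ_t(λ) ≤ max(ψ_t(0),ψ_t(Λ)) = ψ_t(Λ)`. -/
def SCX : Prop := ∀ ℓ s : ℝ, 0 < ℓ → 0 < s → s ≤ ℓ / 2 → ∃ Λ > 0,
  (∀ lam : ℝ, 0 ≤ lam → lam ≤ Λ → 1 ≤ RR ℓ lam s) ∧ (∀ lam : ℝ, Λ ≤ lam → RR ℓ lam s ≤ 1) ∧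
  ∀ t : ℝ, s ≤ t → t ≤ ℓ / 2 →
    (∀ lam : ℝ, 0 ≤ lam → lam ≤ Λ → RR ℓ Λ t ≤ RR ℓ lam t) ∧
    (∀ lam : ℝ, Λ ≤ lam → RR ℓ lam t ≤ RR ℓ Λ t)

/-- Reduction to the edges.  PROOF.  `e^{-a} = ∫ exp(-a²/(2t²)) dγ(t)` for `a ≥ 0`, `γ` the
standard normal law (`Pool.Agent.Helper67.MaxMeas.integral_gaussian_inv_sq`), so with
`λ = 1/(2t²)` and `θ_λ(s) = e^{-λs²} + e^{-λ(ℓ-s)²}` (`Finset.prod_add`):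
`PV n ℓ x = ∫ ∏ i, θ_λ(x i) dγ(t)`.  `θ_λ(ℓ-s) = θ_λ(s)`, so we may fold the coordinates and assume
`0 ≤ x i ≤ ℓ/2`.  Induction on the number of nonzero coordinates; if there is none, `x = 0`.
Otherwise let `i₀` be an index with `s = x i₀ > 0` minimal among the nonzero coordinates and
`x'` be `x` with that coordinate replaced by `0`.  With `Λ` from `SCX` for `s`,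
`W(λ) = ∏ (i ≠ i₀), RR ℓ λ (x i)` (`RR ℓ λ 0 = 1`), `W* = W(Λ) ≥ 0`:
`PV x - PV x' = ∫ (θ_λ(s) - θ_λ(0)) θ_λ(0)^(n-1) W(λ) dγ ≥ W* ∫ (θ_λ(s)-θ_λ(0)) θ_λ(0)^(n-1) dγ =
W* (PV (single i₀ s) - PV 0) ≥ 0`, because `(θ_λ(s) - θ_λ(0)) (W(λ) - W*) ≥ 0` pointwise: for
`λ ≤ Λ` both factors are `≥ 0`, for `λ ≥ Λ` both are `≤ 0` (`SCX`; products of nonnegative
factors).  So `PV x ≥ PV x' ≥ PV 0`. -/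
def FRED : Prop := ∀ (n : ℕ) (ℓ : ℝ), 1 ≤ n → 0 < ℓ →
  (∀ (i : Fin n) (s : ℝ), 0 ≤ s → s ≤ ℓ → PV n ℓ 0 ≤ PV n ℓ (EuclideanSpace.single i s)) →
  ∀ x ∈ cube n ℓ, PV n ℓ 0 ≤ PV n ℓ x

/-- `f_ℓ(r) = e^{-ℓ√r}/√r` -/
noncomputable def ff (ℓ r : ℝ) : ℝ := Real.exp (-(ℓ * Real.sqrt r)) / Real.sqrt r

/-- PROOF.  Put `y = u - v`, `p = uv ≤ 1/4`, `σ = (e^{-ℓv} - e^{-ℓu})/(1 - e^{-ℓ}) =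
sinh(ℓy/2)/sinh(ℓ/2) ≤ y` (`u + v = 1`), `c = 1/4 - (9/50)ℓ² ∈ [7/100, 1/4]`,
`φ(ρ) = 1/(ρ²+c)`, `f(ρ) = e^{-ℓρ}/ρ` on `ρ ∈ [1,√2]` and
`m(ρ) = f'/φ' = e^{-ℓρ}(1+ℓρ)(ρ²+c)²/(2ρ³) > 0`.
(1) `m` is nondecreasing on `[1,√2]`: with `r = ρ²`,
`ρ (log m)' = 4r/(r+c) - 3 - ℓ²r/(1+ℓρ) = (r-3c)/(r+c) - ℓ²r/(1+ℓρ) ≥ 0`, i.e.
`(ρ²-3c)(1+ℓρ) ≥ ℓ²ρ²(ρ²+c)` for `0 < ℓ ≤ 1`, `1 ≤ ρ`, `ρ² ≤ 2` (a polynomial inequality; at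
`ℓ = 1`, `ρ = √2` it reads `1.79 * 2.414 ≥ 4.14`).
(2) Let `ρ₀ = √(1+v²) ≤ ρ₁ = √(1+u²)`, `m = m(ρ₁)`, `H = f - mφ`.  As in `DERIV` (Goals2),
`H(ρ₀) ≤ H(ρ₁)` and `H(√2) ≤ H(ρ₁)`, so
`u f(ρ₁) - v f(ρ₀) - y f(√2) ≥ m (u φ(ρ₁) - v φ(ρ₀) - y φ(√2)) = m y p (c-p)/((2+c)D)`,
`D = p² + C(1-2p) + C² = (u²+C)(v²+C)`, `C = 1+c`.
(3) So it is enough that `(y-σ) f(√2) + m y p (c-p)/((2+c)D) ≥ 0`.  If `p ≤ c` clear.  Else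
use `m ≤ m(√2) = f(√2)(1+√2ℓ)(2+c)²/4` (by (1)), `D ≥ (5/4+c)²` (decreasing in `p`, value at
`p = 1/4`), `p - c ≤ 1/4 - c = (9/50)ℓ²`, and
`y - σ ≥ y p ℓ³/(12 sinh(ℓ/2))`: with `x = ℓ/2`, `y sinh x - sinh(xy) ≥ x³ y(1-y²)/6 =
(2/3)x³ y p` (the difference of the two sides has a power series in `x` with nonnegative
coefficients; or differentiate in `x`) .  Also `sinh(ℓ/2) ≤ (521/1000) ℓ * (something)`, more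
precisely `sinh(ℓ/2) ≤ 0.5211 ℓ * 1.0001` for `0 < ℓ ≤ 1` (`sinh x / x` increases,
`sinh(1/2) < 0.5212`), so `ℓ³/(12 sinh(ℓ/2)) ≥ ℓ²/6.2544`.  It remains:
`(9/50)(1+√2ℓ)(2+c)/(4 (5/4+c)²) ≤ 1/6.2544`: left side `≤ 0.18 * 2.4143 * (2+c)/(4(5/4+c)²)`, and
`(2+c)/(5/4+c)²` is decreasing in `c`, so `≤ 2.07/1.32² < 1.189`: left `≤ 0.1292 < 0.1598`. -/
def DERV2 : Prop := ∀ ℓ u v : ℝ, 0 < ℓ → ℓ ≤ 1 → 0 ≤ v → v ≤ u → u + v = 1 →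
  ff ℓ 2 * (Real.exp (-(ℓ * v)) - Real.exp (-(ℓ * u))) ≤
    (u * ff ℓ (1 + u ^ 2) - v * ff ℓ (1 + v ^ 2)) * (1 - Real.exp (-ℓ))

/-- PROOF (as `DERIV`, Goals2).  On `τ ∈ [0,1]` put `ρ = √(j+τ²)`, `f = e^{-ℓρ}/ρ`,
`φ = 1/(τ²+5/4)`, `q = τ²+5/4`, `r = ρ² = j+τ²`; `df/d(τ²) = -e^{-ℓρ}(1+ℓρ)/(2ρ³)`,
`dφ/d(τ²) = -1/q²`, `m = e^{-ℓρ}(1+ℓρ)q²/(2ρ³)`, and `m` is nondecreasing in `τ`: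
`d(log m)/d(τ²) = 2/q - 3/(2r) - ℓ²/(2(1+ℓρ)) ≥ 0`, i.e. `4r/q - 3 ≥ ℓ²r/(1+ℓρ)`: the right
side is `≤ √r` (as `ℓ ≤ 1`), `q ≤ 9/4` and `q ≤ r - 3/4`; if `r ≤ 3` the left side is
`≥ 4r/(r-3/4) - 3 ≥ 7/3 ≥ √3`, if `r ≥ 3` it is `≥ 16r/9 - 3 ≥ √r`.  Then
`H = f - m(u)φ` increases on `[0,u]` and decreases on `[u,1]`, so
`u f(u) - v f(v) - (u-v) f(1) ≥ m(u) (u φ(u) - v φ(v) - (u-v) φ(1)) ≥ 0` with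
`u/(u²+5/4) - v/(v²+5/4) - (u-v)/(9/4) = (u-v)p(1/4-p)/((9/4)(u²+5/4)(v²+5/4)) ≥ 0`, `p = uv`.
Finally `e^{-ℓv} - e^{-ℓu} = 2e^{-ℓ/2}sinh(ℓ(u-v)/2) ≤ (u-v)(1-e^{-ℓ})` (`sinh` is convex on
`[0,∞)`, `sinh 0 = 0`). -/
def DERVJ : Prop := ∀ (j : ℕ) (ℓ u v : ℝ), 2 ≤ j → 0 < ℓ → ℓ ≤ 1 → 0 ≤ v → v ≤ u → u + v = 1 →
  ff ℓ (j + 1) * (Real.exp (-(ℓ * v)) - Real.exp (-(ℓ * u))) ≤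
    (u * ff ℓ (j + u ^ 2) - v * ff ℓ (j + v ^ 2)) * (1 - Real.exp (-ℓ))

/-- PROOF from `DERV2` (`j = 1`) and `DERVJ` (`j ≥ 2`).  Both sides are symmetric under
`s ↦ ℓ - s` and vanish at `s = 0`; so let `s ≤ ℓ/2` and compare derivatives on `[0,ℓ/2]`.  With
`g(t) = e^{-√(jℓ²+t²)}`, `-g'(t) = t e^{-√(jℓ²+t²)}/√(jℓ²+t²)`; with `u = (ℓ-s)/ℓ`, `v = s/ℓ` the
derivative of `g s + g (ℓ-s)` is `g'(s) - g'(ℓ-s) = u ff ℓ (j+u²) - v ff ℓ (j+v²)`, and the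
derivative of `(1-e^{-s})(1-e^{-(ℓ-s)}) = 1 + e^{-ℓ} - e^{-s} - e^{-(ℓ-s)}` is
`e^{-ℓv} - e^{-ℓu}`. -/
def EDGEJ : Prop := ∀ (j : ℕ) (ℓ s : ℝ), 1 ≤ j → 0 < ℓ → ℓ ≤ 1 → 0 ≤ s → s ≤ ℓ →
  ff ℓ (j + 1) * ((1 - Real.exp (-s)) * (1 - Real.exp (-(ℓ - s)))) ≤
    (Real.exp (-Real.sqrt (j * ℓ ^ 2 + s ^ 2)) + Real.exp (-Real.sqrt (j * ℓ ^ 2 + (ℓ - s) ^ 2)) -
      Real.exp (-(Real.sqrt j * ℓ)) - Real.exp (-(Real.sqrt (j + 1) * ℓ))) *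
      (1 - Real.exp (-ℓ))

/-- PROOF.  As in `CEDGE` (Goals2; see also `PV_edge` in Pool/Agent/Helper62/MM/Cnec.lean and
Pool/Agent/Helper20/MM/CEDGE.lean), `PV (s e_i) - PV 0 = ∑_{j<n} C(n-1,j) Δ_j(s)` with
`Δ_j(s) = e^{-√(jℓ²+s²)} + e^{-√(jℓ²+(ℓ-s)²)} - e^{-√j ℓ} - e^{-√(j+1) ℓ}`.  `Δ_0 = -D`,
`D = (1-e^{-s})(1-e^{-(ℓ-s)}) ≥ 0`, and `Δ_j ≥ D ff ℓ (j+1)/(1-e^{-ℓ})` for `j ≥ 1` (`EDGEJ`).  So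
the sum is `≥ (D/(1-e^{-ℓ})) (-(1-e^{-ℓ}) + ∑_{1≤j<n} C(n-1,j) ff ℓ (j+1)) =
(D/(1-e^{-ℓ})) (sl n ℓ - 1) ≥ 0`. -/
def CEDGE2 : Prop := ∀ (n : ℕ) (ℓ : ℝ), 1 ≤ n → 0 < ℓ → ℓ ≤ 1 → 1 ≤ sl n ℓ →
  ∀ (i : Fin n) (s : ℝ), 0 ≤ s → s ≤ ℓ → PV n ℓ 0 ≤ PV n ℓ (EuclideanSpace.single i s)

/-- Numerical facts.  PROOF.  `sl n` is decreasing in `ℓ` (termwise);
`sl 2 1 ≤ sl 3 1 = e^{-1} + 2e^{-√2}/√2 + e^{-√3}/√3 < 0.3679 + 0.3441 + 0.1025 < 1`; for `n ≥ 4`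
the terms `m = 0,1,2` have binomial coefficients `1`, `n-1 ≥ 3`, `C(n-1,2) ≥ 3` and
`e^{-1} + 3e^{-√2}/√2 + 3e^{-√3}/√3 > 0.367 + 0.51 + 0.30 > 1`. -/
def NUMS : Prop := (∀ (n : ℕ) (ℓ : ℝ), 2 ≤ n → n ≤ 3 → 0 < ℓ → 1 ≤ sl n ℓ → ℓ ≤ 1) ∧
  (∀ (n : ℕ) (ℓ : ℝ), 4 ≤ n → 0 < ℓ → ℓ ≤ 1 → 1 ≤ sl n ℓ)

end Pool.Agent.Helper70.MM
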