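import Pool.Agent.Helper70.MM.AllA
import Pool.Agent.Helper70.MM.Goals3
import Pool.Agent.Helper13.MM.DervJ
import Pool.Agent.Helper19.MM.CBase
import Pool.Agent.Helper56.MM.DERV2
import Pool.Agent.Helper58.MM.CSYM
import Pool.Agent.Helper58.MM.EDGEJ
import Pool.Agent.Helper62.MM.Cnec
import Pool.Agent.Helper65.MM.Fred
import Pool.Agent.Helper79.MM.CEDGE2
import Pool.Agent.Helper87.MM.SCX
import Pool.Agent.Helper90.MM.Nums

open MeasureTheory Set Metric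
open scoped ENNReal Topology
open Pool.Agent.Results.MP_91ee6f_gt

namespace Pool.Agent.Helper70.MM

theorem fCBASE : CBASE := Pool.Agent.Helper19.MM.cbase
theorem fCSYM : CSYM := Pool.Agent.Helper58.MM.csym
theorem fCNEC : CNEC := Pool.Agent.Helper62.MM.cnec
theorem fSCX : SCX := Pool.Agent.Helper87.MM.scx
theorem fFRED : FRED := Pool.Agent.Helper65.MM.fred fSCX
theorem fDERV2 : DERV2 := Pool.Agent.Helper56.MM.dERV2
theorem fDERVJ : DERVJ := Pool.Agent.Helper13.MM.dERVJ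
theorem fEDGEJ : EDGEJ := Pool.Agent.Helper58.MM.edgej fDERV2 fDERVJ
theorem fCEDGE2 : CEDGE2 := Pool.Agent.Helper79.MM.cedge2 fEDGEJ
theorem fNUMS : NUMS := Pool.Agent.Helper90.MM.nums

/-- Cubes: the vertices. -/
theorem cube_vertices (n : ℕ) (hn : 2 ≤ n) (ℓ : ℝ) (hℓ : 0 < ℓ) :
    ∃ w : Measure (En n), IsTheMaximising (cube n ℓ) w ∧
      (w = vertUnif n ℓ → 1 ≤ vertSlope n ℓ) ∧
      (n ≤ 3 → 1 ≤ vertSlope n ℓ → w = vertUnif n ℓ) ∧
      (4 ≤ n → ℓ ≤ 1 → w = vertUnif n ℓ) ∧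
      (w = vertUnif n ℓ → w.support = range (vert n ℓ) ∧
        MaxDiversity (cube n ℓ) (2 ^ n /
          ∑ k ∈ Finset.range (n + 1), (n.choose k : ℝ) * Real.exp (-(Real.sqrt k * ℓ)))) := by
  obtain ⟨hb1, hb2, hb3, hb4, hcomp, hne, hb5⟩ := fCBASE n ℓ hℓ
  obtain ⟨μ, c, hc, hmax, hdiv, huniq, hk1, hk2⟩ := fEXMAX n (cube n ℓ) hcomp hne
  have h0v : vert n ℓ ∅ = 0 := by
    unfold vert
    ext i
    simp
  have hPVpos : 0 < PV n ℓ 0 := by
    unfold PV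
    exact Finset.sum_pos (fun T _ => Real.exp_pos _) Finset.univ_nonempty
  have hsmall : ℓ ≤ 1 → 1 ≤ sl n ℓ → inEn μ = vertUnif n ℓ := by
    intro hℓ1 hcond
    have hmin := fFRED n ℓ (by omega) hℓ (fCEDGE2 n ℓ (by omega) hℓ hℓ1 hcond)
    have hcpos : 0 < PV n ℓ 0 / 2 ^ n := by positivity
    obtain ⟨μ', h1, h2, h3, h4⟩ := fCRIT n (cube n ℓ) hcomp (vertUnif n ℓ) hb2
      (by
        have h6 : (vertUnif n ℓ).supportᶜ ⊇ (cube n ℓ)ᶜ := by
          rw [hb4]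
          exact compl_subset_compl.2 hb5
        exact measure_mono_null h6 Measure.measure_compl_support)
      (PV n ℓ 0 / 2 ^ n) hcpos
      (fun x hx => by
        rw [hb3]
        have := hmin x hx
        gcongr)
      (fun x hx => by
        rw [hb4] at hx
        obtain ⟨T, rfl⟩ := hx
        rw [hb3, (fCSYM n ℓ (by omega) hℓ).1 T])
    have hμ' : μ' = μ := huniq μ' h2
    rw [← hμ']
    exact h1
  refine ⟨inEn μ, ⟨μ, rfl, fun ν => ⟨huniq ν, fun h => h ▸ hmax⟩⟩, ?_, ?_, ?_, ?_⟩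
  · intro h
    refine fCNEC n ℓ (by omega) hℓ ?_
    intro x hx
    have h1 := hk1 x hx
    have h2 := hk2 (vert n ℓ ∅) (by rw [h, hb4]; exact ⟨∅, rfl⟩)
    rw [h, hb3] at h1 h2
    rw [h0v] at h2
    rw [← h2] at h1
    have h3 : (0 : ℝ) < 2 ^ n := by positivity
    exact (div_le_div_iff_of_pos_right h3).1 h1
  · intro h3 h1
    exact hsmall (fNUMS.1 n ℓ hn h3 hℓ h1) h1
  · intro h4 h1
    exact hsmall h1 (fNUMS.2 n ℓ h4 hℓ h1)
  · intro h
    refine ⟨by rw [h]; exact hb4, ?_⟩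
    intro ν hν q
    rw [huniq ν hν, hdiv q]
    have h2 := hk2 (vert n ℓ ∅) (by rw [h, hb4]; exact ⟨∅, rfl⟩)
    rw [h, hb3, h0v] at h2
    rw [← h2, inv_div, hb1]

end Pool.Agent.Helper70.MM
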