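import Pool.Agent.Helper70.MM.Defs

open MeasureTheory Set Metric
open scoped ENNReal

namespace Pool.Agent.Results.MP_91ee6f_gt

/-- The closed ball `B_R = {x ∈ ℝⁿ : |x| ≤ R}`. -/
def cBall (n : ℕ) (R : ℝ) : Set (En n) := closedBall 0 R

/-- The open ball `{x ∈ ℝⁿ : |x| < R}`. -/
def oBall (n : ℕ) (R : ℝ) : Set (En n) := ball 0 R

/-- The sphere `{x ∈ ℝⁿ : |x| = R}`. -/
def sph (n : ℕ) (R : ℝ) : Set (En n) := sphere 0 R

/-- The metric space `X ⊂ ℝⁿ` has exactly one maximising measure, and `w` is that measure,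
viewed as a measure on `ℝⁿ`. -/
def IsTheMaximising {n : ℕ} (X : Set (En n)) (w : Measure (En n)) : Prop :=
  ∃ μ : Measure X, w = inEn μ ∧ ∀ ν : Measure X, IsMaximising ν ↔ ν = μ

/-- Every maximising measure of the metric space `X ⊂ ℝⁿ` has all its diversities
`D_q`, `q ∈ [0,∞]`, equal to `d`. -/
def MaxDiversity {n : ℕ} (X : Set (En n)) (d : ℝ) : Prop :=
  ∀ μ : Measure X, IsMaximising μ → ∀ q : ℝ≥0∞, diversity q μ = d

/-- `(2/π) ∫_0^{π/2} e^{-2R sin t} dt`, the energy `∬ e^{-|x-y|}` of the uniform measure on the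
circle of radius `R`. -/
noncomputable def circleEnergy (R : ℝ) : ℝ :=
  (2 / Real.pi) * ∫ t in (0 : ℝ)..(Real.pi / 2), Real.exp (-(2 * R * Real.sin t))

/-- `s_n(ℓ) = ∑_{m=0}^{n-1} C(n-1,m) e^{-√(m+1) ℓ}/√(m+1)`. -/
noncomputable def vertSlope (n : ℕ) (ℓ : ℝ) : ℝ :=
  ∑ m ∈ Finset.range n, ((n - 1).choose m : ℝ) *
    (Real.exp (-(Real.sqrt (m + 1) * ℓ)) / Real.sqrt (m + 1))

end Pool.Agent.Results.MP_91ee6f_gt
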