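import Pool.Agent.Helper70.MM.FinalA
import Pool.Agent.Helper70.MM.Stmt
import Pool.Agent.Helper12.MM.Sph2
import Pool.Agent.Helper15.MM.Sph4
import Pool.Agent.Helper2.MM.QCall
import Pool.Agent.Helper22.MM.Bdry
import Pool.Agent.Helper24.MM.Thr
import Pool.Agent.Helper27.MM.SPHU
import Pool.Agent.Helper3.MM.Box
import Pool.Agent.Helper31.MM.Crit
import Pool.Agent.Helper32.MM.Sing
import Pool.Agent.Helper33.MM.Urad
import Pool.Agent.Helper38.MM.Uloc
import Pool.Agent.Helper42.MM.ExMax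
import Pool.Agent.Helper49.MM.Rot
import Pool.Agent.Helper51.MM.Circ
import Pool.Agent.Helper51.MM.Minp
import Pool.Agent.Helper61.MM.Sph1
import Pool.Agent.Helper65.MM.Haus
import Pool.Agent.Helper77.MM.UD
import Pool.Agent.Helper81.MM.QCStep
import Pool.Agent.Helper83.MM.TH1
import Pool.Agent.Helper86.MM.Dens
import Pool.Agent.Helper89.MM.TH3
import Pool.Agent.Helper90.MM.TH2

open MeasureTheory Set Metric
open scoped ENNReal Topology
open Pool.Agent.Results.MP_91ee6f_gt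

namespace Pool.Agent.Helper70.MM

theorem fCRIT : CRIT := Pool.Agent.Helper31.MM.crit
theorem fEXMAX : EXMAX := Pool.Agent.Helper42.MM.exmax fCRIT
theorem fSING : SING := Pool.Agent.Helper32.MM.sing
theorem fHAUS : HAUS := Pool.Agent.Helper65.MM.haus
theorem fDENS : DENS := Pool.Agent.Helper86.MM.dens
theorem fBOX : BOX := Pool.Agent.Helper3.MM.box
theorem fSPH1 : SPH1 := Pool.Agent.Helper61.MM.sph1
theorem fSPH2 : SPH2 := sph2
theorem fSPH4 : SPH4 := Pool.Agent.Helper15.MM.sph4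
theorem fUD : UD := Pool.Agent.Helper77.MM.ud
theorem fULOC : ULOC := Pool.Agent.Helper38.MM.uloc fUD
theorem fURAD : URAD := Pool.Agent.Helper33.MM.urad fUD fSPH1 fSPH2
theorem fQCALL : QCALL :=
  Pool.Agent.Helper2.MM.qcall fSPH1 fULOC fURAD Pool.Agent.Helper81.MM.qcStep
theorem fMINP : MINP := Pool.Agent.Helper51.MM.minp fSPH1 fSPH2 fQCALL
theorem fTH1 : TH1 := Pool.Agent.Helper83.MM.th1 fSPH1 fSPH2 fMINP
theorem fTH2 : TH2 := Pool.Agent.Helper90.MM.th2 fSPH1 fSPH2 fULOC fMINP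
theorem fTH3 : TH3 := Pool.Agent.Helper89.MM.th3 fSPH1 fSPH2 fSPH4 fMINP
theorem fTH4 : TH4 := Pool.Agent.Helper61.MM.th4 fSPH1 fSPH2 fMINP
theorem fTHR : THR := Pool.Agent.Helper24.MM.thr fTH1 fTH2 fTH3 fTH4
theorem fROT : ROT := Pool.Agent.Helper49.MM.rot fCRIT fEXMAX
theorem fSPHU : SPHU := Pool.Agent.Helper27.MM.sphu fSPH1 fMINP
theorem fBDRY : BDRY := Pool.Agent.Helper22.MM.bdry
theorem fCIRC : CIRC := Pool.Agent.Helper51.MM.circ

/-- Everything about balls. -/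
theorem ballAll (n : ℕ) (hn : 2 ≤ n) :
    ∃ Rc : ℝ, ((n : ℝ) - 1) / Real.sqrt 2 ≤ Rc ∧ Rc ≤ 2 * n * Real.log 5 ∧
      (∀ R : ℝ, 0 < R → (sphEnergy n R ≤ Real.exp (-R) ↔ R ≤ Rc)) ∧
      ∀ R : ℝ, 0 < R → ∃ μ : Measure (closedBall (0 : En n) R),
        IsMaximising μ ∧
        (∀ ν : Measure (closedBall (0 : En n) R), IsMaximising ν → ν = μ) ∧
        sphere (0 : En n) R ⊆ (inEn μ).support ∧
        (∀ x : En n, ‖x‖ ≤ R → ∃ y ∈ (inEn μ).support,
          dist x y ≤ 1 + n * Real.log (1 + 2 * Real.sqrt n * R)) ∧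
        (∀ A : Set (En n), SigmaFiniteLength A → inEn μ (A ∩ ball 0 R) = 0) ∧
        (R ≤ Rc → inEn μ = sphUnif n R ∧ (inEn μ).support = sphere 0 R ∧
          ∀ q : ℝ≥0∞, diversity q μ = (sphEnergy n R)⁻¹) ∧
        (Rc < R → ∀ A : Set (En n), SigmaFiniteLength A →
          ¬ (inEn μ).support ⊆ sphere 0 R ∪ A) ∧
        (n = 2 → (IsFinUnionSpheres (inEn μ).support ↔ R ≤ Rc)) :=
  finalA fCRIT fEXMAX fSING fHAUS fDENS fBOX fSPH1 fMINP fTHR fROT fSPHU fBDRY fCIRC n hn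

/-- continuity gives equality at the threshold -/
lemma threshold_eq {n : ℕ} (hn : 2 ≤ n) {Rc : ℝ} (hRc : (n : ℝ) - 1 ≤ Rc)
    (h : ∀ R : ℝ, 0 < R → (sphEnergy n R ≤ Real.exp (-R) ↔ R ≤ Rc)) :
    sphEnergy n Rc = Real.exp (-Rc) := by
  have hn' : (2 : ℝ) ≤ n := by exact_mod_cast hn
  have h0 : 0 < Rc := by linarith
  refine le_antisymm ((h Rc h0).2 le_rfl) ?_
  have hc : ContinuousAt (sphEnergy n) Rc := (fTH4 n (by omega)).continuousAt (Ioi_mem_nhds h0)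
  have hc1 : Filter.Tendsto (sphEnergy n) (𝓝[>] Rc) (𝓝 (sphEnergy n Rc)) :=
    hc.tendsto.mono_left nhdsWithin_le_nhds
  have hc2 : Filter.Tendsto (fun r : ℝ => Real.exp (-r)) (𝓝[>] Rc) (𝓝 (Real.exp (-Rc))) := by
    have : Continuous fun r : ℝ => Real.exp (-r) := by fun_prop
    exact this.continuousAt.tendsto.mono_left nhdsWithin_le_nhds
  refine le_of_tendsto_of_tendsto hc2 hc1 ?_
  filter_upwards [self_mem_nhdsWithin] with r hr
  have hr' : Rc < r := hr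
  by_contra hcon
  rw [not_le] at hcon
  have := (h r (by linarith)).1 hcon.le
  linarith

lemma threshold_lower {n : ℕ} (hn : 2 ≤ n) {Rc : ℝ}
    (h : ∀ R : ℝ, 0 < R → (sphEnergy n R ≤ Real.exp (-R) ↔ R ≤ Rc)) : (n : ℝ) - 1 ≤ Rc := by
  have hn' : (2 : ℝ) ≤ n := by exact_mod_cast hn
  have h0 : 0 < (n : ℝ) - 1 := by linarith
  exact (h _ h0).1 (Pool.Agent.Helper90.MM.th2_closed fSPH1 fULOC fMINP fTH4 n hn _ h0 le_rfl)

lemma support_subset_ball {n : ℕ} {R : ℝ} (μ : Measure (closedBall (0 : En n) R)) :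
    (inEn μ).support ⊆ closedBall (0 : En n) R := by
  have hemb : MeasurableEmbedding (Subtype.val : closedBall (0 : En n) R → En n) :=
    MeasurableEmbedding.subtype_coe isClosed_closedBall.measurableSet
  refine Measure.support_subset_of_isClosed isClosed_closedBall ?_
  rw [mem_ae_iff]
  unfold inEn
  rw [hemb.map_apply]
  have : (Subtype.val : closedBall (0 : En n) R → En n) ⁻¹' (closedBall (0 : En n) R)ᶜ = ∅ := by
    ext x
    simp
  rw [this, measure_empty]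

lemma sigmaFiniteLength_empty {n : ℕ} : SigmaFiniteLength (∅ : Set (En n)) :=
  ⟨fun _ => ∅, by simp, by simp⟩

/-- The threshold theorem in all dimensions. -/
theorem sphere_threshold (n : ℕ) (hn : 2 ≤ n) :
    ∃ Rc : ℝ, (n : ℝ) - 1 ≤ Rc ∧ Rc ≤ 2 * n * Real.log 5 ∧ sphEnergy n Rc = Real.exp (-Rc) ∧
      ∀ R : ℝ, 0 < R → (sphEnergy n R ≤ Real.exp (-R) ↔ R ≤ Rc) ∧
        ∃ w : Measure (En n), IsTheMaximising (cBall n R) w ∧
          (R ≤ Rc → w = sphUnif n R ∧ w.support = sph n R ∧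
            MaxDiversity (cBall n R) (sphEnergy n R)⁻¹) ∧
          (Rc < R → sph n R ⊆ w.support ∧ (w.support ∩ oBall n R).Nonempty) := by
  obtain ⟨Rc, -, h2, h3, h4⟩ := ballAll n hn
  have h1 := threshold_lower hn h3
  refine ⟨Rc, h1, h2, threshold_eq hn h1 h3, fun R hR => ⟨h3 R hR, ?_⟩⟩
  obtain ⟨μ, hmax, huniq, hbd, -, -, hsmall, hlarge, -⟩ := h4 R hR
  refine ⟨inEn μ, ⟨μ, rfl, fun ν => ⟨huniq ν, fun h => h ▸ hmax⟩⟩, ?_, fun hlt => ⟨hbd, ?_⟩⟩
  · intro hle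
    obtain ⟨h5, h6, h7⟩ := hsmall hle
    refine ⟨h5, h6, fun ν hν q => ?_⟩
    rw [huniq ν hν]
    exact h7 q
  · have h5 := hlarge hlt ∅ sigmaFiniteLength_empty
    rw [union_empty, not_subset] at h5
    obtain ⟨x, hx, hxs⟩ := h5
    refine ⟨x, hx, ?_⟩
    have h6 := support_subset_ball μ hx
    unfold oBall
    rw [mem_ball]
    rw [mem_closedBall] at h6
    rw [mem_sphere] at hxs
    exact lt_of_le_of_ne h6 hxs

end Pool.Agent.Helper70.MM
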