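import Pool.Agent.Helper70.MM.AllA
import Pool.Agent.Helper94.MM.CFORM
import Pool.Agent.Helper40.MM.Cnum

open MeasureTheory Set Metric
open scoped ENNReal Topology
open Pool.Agent.Results.MP_91ee6f_gt

namespace Pool.Agent.Helper70.MM

theorem fCFORM : CFORM := Pool.Agent.Helper94.MM.cform fSPH1 fMINP
theorem fCNUM : CNUM := Pool.Agent.Helper40.MM.cnum fCFORM

/-- The disc. -/
theorem disc_conjecture :
    ∃ Rc : ℝ, 1 ≤ Rc ∧ Rc < 17 / 10 ∧ circleEnergy Rc = Real.exp (-Rc) ∧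
      ∀ R : ℝ, 0 < R → (circleEnergy R ≤ Real.exp (-R) ↔ R ≤ Rc) ∧
        ∃ w : Measure (En 2), IsTheMaximising (cBall 2 R) w ∧
          (IsFinUnionSpheres w.support ↔ R ≤ Rc) ∧
          (R ≤ Rc → w.support = sph 2 R) ∧
          (Rc < R → ∀ A : Set (En 2), SigmaFiniteLength A → ¬ w.support ⊆ A) := by
  obtain ⟨Rc, -, h2, h3, h4⟩ := ballAll 2 le_rfl
  have h1 := threshold_lower le_rfl h3
  have hE : ∀ R : ℝ, 0 < R → circleEnergy R = sphEnergy 2 R := fun R hR => (fCFORM R hR).symm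
  have h1' : (1 : ℝ) ≤ Rc := by
    have : ((2 : ℕ) : ℝ) - 1 = 1 := by norm_num
    linarith
  refine ⟨Rc, h1', ?_, ?_, fun R hR => ⟨?_, ?_⟩⟩
  · by_contra hcon
    rw [not_lt] at hcon
    have h5 := (h3 (17 / 10) (by norm_num)).2 hcon
    have h6 := fCNUM
    unfold CNUM at h6
    linarith
  · rw [hE Rc (by linarith)]
    exact threshold_eq le_rfl h1 h3
  · rw [hE R hR]
    exact h3 R hR
  · obtain ⟨μ, hmax, huniq, hbd, -, -, hsmall, hlarge, hiff⟩ := h4 R hR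
    refine ⟨inEn μ, ⟨μ, rfl, fun ν => ⟨huniq ν, fun h => h ▸ hmax⟩⟩, hiff rfl,
      fun hle => (hsmall hle).2.1, fun hlt A hA hsub => ?_⟩
    exact hlarge hlt A hA (hsub.trans subset_union_right)

end Pool.Agent.Helper70.MM
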