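import Pool.Agent.Helper70.MM.Final5b
import Pool.Agent.Helper96.MM.SDer
import Pool.Agent.Helper42.MM5.AVG
import Pool.Agent.Helper94.MM.Inv
import Pool.Agent.Helper60.MM.PDer
import Pool.Agent.Helper87.MM.GPos
import Pool.Agent.Helper89.MM.Mono
import Pool.Agent.Helper32.MM5.Outer
import Pool.Agent.Helper24.MM.Strict
import Pool.Agent.Helper81.MM.Cse
import Pool.Agent.Helper30.MM5.NEARB
import Pool.Agent.Helper17.MM.Mid
import Pool.Agent.Helper65.MM.Radw
import Pool.Agent.Helper97.MM5.INNER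
import Pool.Agent.Helper39.MM5.Close

open MeasureTheory Set Metric
open scoped ENNReal Topology
open Pool.Agent.Results.MP_91ee6f_gt

namespace Pool.Agent.Helper70.MM

theorem fAVG : AVG := Pool.Agent.Helper42.MM5.avg
theorem fINV : INV := Pool.Agent.Helper94.MM.inv
theorem fPDER : PDER := Pool.Agent.Helper60.MM.pder
theorem fSDER : SDER := Pool.Agent.Helper96.MM.sder fPDER fAVG
theorem fSTRICT : STRICT := Pool.Agent.Helper24.MM.strict fPDER fSDER fAVG
theorem fOUTER : OUTER := Pool.Agent.Helper32.MM5.outer fPDER fSDER fAVG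
theorem fGPOS : GPOS := Pool.Agent.Helper87.MM.gpos fINV
theorem fMONO : MONO := Pool.Agent.Helper89.MM.mono fPDER fSDER fGPOS
theorem fCSE : CSE := Pool.Agent.Helper81.MM.cse
theorem fNEARB : NEARB := Pool.Agent.Helper30.MM5.nearb fINV
theorem fMID : MID := Pool.Agent.Helper17.MM.mid fPDER fOUTER fNEARB
theorem fRADW : RADW := Pool.Agent.Helper65.MM.radw fPDER
theorem fINNER : INNER :=
  Pool.Agent.Helper97.MM5.goalINNER fPDER fSDER fMONO fOUTER fRADW
theorem fCLOSE : CLOSE := Pool.Agent.Helper39.MM5.close fCSE fNEARB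

/-- The transitions of the support. -/
theorem sphere_transitions (n : ℕ) (hn : 2 ≤ n) :
    ∃ Rc : ℝ, (n : ℝ) - 1 ≤ Rc ∧ Rc ≤ 2 * n * Real.log 5 ∧ sphEnergy n Rc = Real.exp (-Rc) ∧
      (∀ R : ℝ, 0 < R → (sphEnergy n R ≤ Real.exp (-R) ↔ R ≤ Rc) ∧
        ∃ w : Measure (En n), IsTheMaximising (cBall n R) w ∧
          (R ≤ Rc → w = sphUnif n R ∧ w.support = sph n R ∧
            MaxDiversity (cBall n R) (sphEnergy n R)⁻¹) ∧
          (Rc < R → sph n R ⊆ w.support ∧ (w.support ∩ oBall n R).Nonempty)) ∧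
      (4 ≤ n → ∀ η : ℝ, 0 < η → ∃ ε : ℝ, 0 < ε ∧ ∀ R : ℝ, Rc < R → R < Rc + ε →
        ∃ (s m : ℝ) (w : Measure (En n)), 0 < s ∧ s < η ∧ s < R ∧ 0 < m ∧ m < 1 ∧
          w = ENNReal.ofReal (1 - m) • sphUnif n R + ENNReal.ofReal m • sphUnif n s ∧
          IsTheMaximising (cBall n R) w ∧ w.support = sph n R ∪ sph n s) :=
  sphere_transitions_of fSTRICT fNEARB fMID fINNER fCLOSE n hn

end Pool.Agent.Helper70.MM
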