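import Pool.Agent.Helper67.MaxMeas.Defs

open MeasureTheory Set Metric
open scoped ENNReal

namespace Pool.Agent.Results.MP_91ee6f_gt

/-- Euclidean `n`-space. -/
abbrev En (n : ℕ) : Type := EuclideanSpace ℝ (Fin n)

/-- The uniform probability measure `σ_s` on the sphere of radius `s` about `0` in `ℝⁿ`: the
normalised surface measure of the unit sphere (Mathlib's `Measure.toSphere`) pushed forward by
`θ ↦ s θ`. -/
noncomputable def sphUnif (n : ℕ) (s : ℝ) : Measure (En n) :=
  ((volume : Measure (En n)).toSphere univ)⁻¹ •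
    ((volume : Measure (En n)).toSphere).map (fun θ : sphere (0 : En n) 1 => s • (θ : En n))

/-- The energy `c_n(R) = ∬ e^{-|x-y|} dσ_R(x) dσ_R(y)` of the uniform measure on the sphere of
radius `R` in `ℝⁿ`. -/
noncomputable def sphEnergy (n : ℕ) (R : ℝ) : ℝ :=
  ∫ x, potential (sphUnif n R) x ∂(sphUnif n R)

/-- `A` is covered by countably many sets of finite length (one-dimensional Hausdorff
measure). -/
def SigmaFiniteLength {n : ℕ} (A : Set (En n)) : Prop :=
  ∃ T : ℕ → Set (En n), A ⊆ ⋃ i, T i ∧ ∀ i, μH[1] (T i) < ∞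

/-- `S` is a finite union of spheres centred at the origin (radius `0`, i.e. the centre itself,
and the empty union are allowed). -/
def IsFinUnionSpheres {n : ℕ} (S : Set (En n)) : Prop :=
  ∃ F : Set ℝ, F.Finite ∧ S = ⋃ r ∈ F, sphere (0 : En n) r

/-- A measure on a subset `X` of `ℝⁿ`, viewed as a measure on `ℝⁿ` (push-forward by the
inclusion). -/
noncomputable def inEn {n : ℕ} {X : Set (En n)} (μ : Measure X) : Measure (En n) :=
  μ.map Subtype.val

/-- The cube `[0,ℓ]ⁿ`. -/
def cube (n : ℕ) (ℓ : ℝ) : Set (En n) := {x | ∀ i, 0 ≤ x i ∧ x i ≤ ℓ}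

/-- The vertex of the cube `[0,ℓ]ⁿ` whose coordinates with index in `T` are `ℓ` and whose other
coordinates are `0`. -/
noncomputable def vert (n : ℕ) (ℓ : ℝ) (T : Finset (Fin n)) : En n :=
  WithLp.toLp 2 (fun i => if i ∈ T then ℓ else 0)

/-- The uniform probability measure on the `2ⁿ` vertices of the cube `[0,ℓ]ⁿ`. -/
noncomputable def vertUnif (n : ℕ) (ℓ : ℝ) : Measure (En n) :=
  ((2 : ℝ≥0∞) ^ n)⁻¹ • ∑ T : Finset (Fin n), Measure.dirac (vert n ℓ T)

end Pool.Agent.Results.MP_91ee6f_gt
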