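import Pool.Agent.Helper70.MM.Goals5

open MeasureTheory Set Metric
open scoped ENNReal Topology
open Pool.Agent.Results.MP_91ee6f_gt

namespace Pool.Agent.Helper70.MM

lemma sq_le_bound {a q b : ℝ} (hb : 0 ≤ b) (h : a ^ 2 ≤ q) (hq : q ≤ b ^ 2) : a ≤ b := by
  by_contra hcon
  rw [not_le] at hcon
  nlinarith

/-- The two-sphere regime. -/
theorem two_spheres (hST : STRICT) (hNE : NEARB) (hMID : MID) (hIN : INNER) (hCL : CLOSE)
    (n : ℕ) (hn : 4 ≤ n) (Rc : ℝ)
    (hRc : ∀ R : ℝ, 0 < R → (sphEnergy n R ≤ Real.exp (-R) ↔ R ≤ Rc)) (η : ℝ) (hη : 0 < η) :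
    ∃ ε > 0, ∀ R : ℝ, Rc < R → R < Rc + ε → ∀ μ : Measure (closedBall (0 : En n) R),
      IsMaximising μ → ∃ s m : ℝ, 0 < s ∧ s < η ∧ s < R ∧ 0 < m ∧ m < 1 ∧
        inEn μ = ENNReal.ofReal (1 - m) • sphUnif n R + ENNReal.ofReal m • sphUnif n s := by
  have hn1 : 1 ≤ n := by omega
  have hn2 : 2 ≤ n := by omega
  have hn3 : 3 ≤ n := by omega
  have hn' : (4 : ℝ) ≤ n := by exact_mod_cast hn
  have hlow := threshold_lower hn2 hRc
  have heq := threshold_eq hn2 hlow hRc
  have hstr : (n : ℝ) - 1 < Rc := by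
    refine lt_of_le_of_ne hlow fun h => ?_
    have h1 := hST n hn3
    rw [h, heq] at h1
    exact lt_irrefl _ h1
  have hRc3 : 3 < Rc := by linarith
  obtain ⟨δ, hδ, hδη, hδR, hin⟩ := hIN n hn Rc hstr η hη
  obtain ⟨C1, hC1, hne⟩ := hNE n hn3
  obtain ⟨C2, hC2, hcl⟩ := hCL n hn3
  obtain ⟨κ, hκdef⟩ : ∃ κ, κ = Real.exp (-(2 * (Rc + 1))) / 2 := ⟨_, rfl⟩
  have hκ : 0 < κ := by rw [hκdef]; positivity
  obtain ⟨h0, hh0def⟩ : ∃ h0, h0 = min 1 (κ / (4 * C1)) := ⟨_, rfl⟩
  have hh0 : 0 < h0 := by rw [hh0def]; positivity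
  have hh01 : h0 ≤ 1 := by rw [hh0def]; exact min_le_left _ _
  have hh0C : C1 * h0 ≤ κ / 4 := by
    have : h0 ≤ κ / (4 * C1) := by rw [hh0def]; exact min_le_right _ _
    calc C1 * h0 ≤ C1 * (κ / (4 * C1)) := by gcongr
      _ = κ / 4 := by field_simp
  obtain ⟨γ, hγ, ε1, hε1, hmid⟩ := hMID n hn3 Rc hstr heq δ h0 hδ hh0
  have hgap : 0 < Real.exp (-δ) - Real.exp (-Rc) := by
    have : Real.exp (-Rc) < Real.exp (-δ) := Real.exp_lt_exp.2 (by linarith)
    linarith
  obtain ⟨q0, hq0, hq1, hq2, hq3, hq4⟩ : ∃ q0 > 0, q0 ≤ (γ / 4) ^ 2 ∧ q0 ≤ γ / 4 ∧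
      q0 * (2 + C2) ≤ (κ / 4) ^ 2 ∧
      q0 ≤ ((Real.exp (-δ) - Real.exp (-Rc)) / 2) ^ 2 := by
    refine ⟨min (min ((γ / 4) ^ 2) (γ / 4)) (min ((κ / 4) ^ 2 / (2 + C2))
      (((Real.exp (-δ) - Real.exp (-Rc)) / 2) ^ 2)), by positivity, ?_, ?_, ?_, ?_⟩
    · exact (min_le_left _ _).trans (min_le_left _ _)
    · exact (min_le_left _ _).trans (min_le_right _ _)
    · have h : min (min ((γ / 4) ^ 2) (γ / 4)) (min ((κ / 4) ^ 2 / (2 + C2))
          (((Real.exp (-δ) - Real.exp (-Rc)) / 2) ^ 2)) ≤ (κ / 4) ^ 2 / (2 + C2) :=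
        (min_le_right _ _).trans (min_le_left _ _)
      rwa [le_div_iff₀ (by positivity)] at h
    · exact (min_le_right _ _).trans (min_le_right _ _)
  have hcont : ContinuousAt (fun R => sphEnergy n R - Real.exp (-R)) Rc := by
    have h1 : ContinuousAt (sphEnergy n) Rc := (fTH4 n hn1).continuousAt (Ioi_mem_nhds (by linarith))
    have h2 : Continuous fun R : ℝ => Real.exp (-R) := by fun_prop
    exact h1.sub h2.continuousAt
  obtain ⟨ε2, hε2, hq⟩ : ∃ ε2 > 0, ∀ R : ℝ, |R - Rc| < ε2 → sphEnergy n R - Real.exp (-R) < q0 := by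
    have h1 := Metric.continuousAt_iff.1 hcont q0 hq0
    obtain ⟨ε2, hε2, h2⟩ := h1
    refine ⟨ε2, hε2, fun R hR => ?_⟩
    have h3 := h2 (x := R) (by rw [Real.dist_eq]; exact hR)
    rw [Real.dist_eq, heq, sub_self, sub_zero] at h3
    exact (abs_lt.1 h3).2
  refine ⟨min (min ε1 ε2) 1, by positivity, fun R hR1 hR2 μ hμ => ?_⟩
  have hRε1 : R ≤ Rc + ε1 := by
    have := (min_le_left (min ε1 ε2) 1).trans (min_le_left _ _)
    linarith
  have hRε2 : |R - Rc| < ε2 := by
    have := (min_le_left (min ε1 ε2) 1).trans (min_le_right _ _)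
    rw [abs_of_pos (by linarith)]
    linarith
  have hR11 : R ≤ Rc + 1 := by
    have := min_le_right (min ε1 ε2) 1
    linarith
  have hR : 0 < R := by linarith
  obtain ⟨q, hqdef⟩ : ∃ q, q = sphEnergy n R - Real.exp (-R) := ⟨_, rfl⟩
  have hqpos : 0 < q := by
    rw [hqdef]
    by_contra hcon
    have := (hRc R hR).1 (by linarith)
    linarith
  have hqlt : q < q0 := by rw [hqdef]; exact hq R hRε2
  have hqle : q ≤ q0 := hqlt.le
  -- the maximising measure
  obtain ⟨μ0, c, hc, hmax, hdiv, huniq, hk1, hk2⟩ := fEXMAX n (closedBall (0 : En n) R)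
    (isCompact_closedBall _ _) ⟨0, mem_closedBall_self hR.le⟩
  obtain rfl : μ = μ0 := huniq μ hμ
  have hemb : MeasurableEmbedding (Subtype.val : closedBall (0 : En n) R → En n) :=
    MeasurableEmbedding.subtype_coe isClosed_closedBall.measurableSet
  have hprobμ : IsProbabilityMeasure μ := hmax.1
  have hprob : IsProbabilityMeasure (inEn μ) :=
    Measure.isProbabilityMeasure_map hemb.measurable.aemeasurable
  have hw : inEn μ (closedBall (0 : En n) R)ᶜ = 0 := by
    unfold inEn
    rw [hemb.map_apply]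
    have : (Subtype.val : closedBall (0 : En n) R → En n) ⁻¹' (closedBall (0 : En n) R)ᶜ = ∅ := by
      ext x
      simp
    rw [this, measure_empty]
  have hrot := fROT n R hR μ hmax
  have hbd := fBDRY n hn1 R hR (inEn μ) hprob hw hrot c hk1 hk2
  obtain ⟨hp1, hp2, hp3⟩ := fSPH1 n hn1 R
  obtain ⟨hm1, hm2, hm3, hm4⟩ := fMINP n hn1 R hR
  obtain ⟨hcl1, hcl2, hcl3, hcl4⟩ := hcl R hR (by linarith) (inEn μ) hprob hw hrot c hk1 hk2
  rw [← hqdef] at hcl3 hcl4
  have hnt : Nontrivial (En n) := by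
    have : Nonempty (Fin n) := ⟨⟨0, by omega⟩⟩
    infer_instance
  -- the support
  have hsupp : ∀ x ∈ (inEn μ).support, ‖x‖ ≤ δ ∨ ‖x‖ = R := by
    intro x hx
    have hxR : ‖x‖ ≤ R := by
      have := support_subset_ball μ hx
      rwa [mem_closedBall_zero_iff] at this
    by_contra hcon
    rw [not_or, not_le] at hcon
    obtain ⟨hxδ, hxne⟩ := hcon
    have hxlt : ‖x‖ < R := lt_of_le_of_ne hxR hxne
    have hx0 : 0 < ‖x‖ := by linarith
    obtain ⟨e, hedef⟩ : ∃ e : En n, e = (‖x‖)⁻¹ • x := ⟨_, rfl⟩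
    have he : ‖e‖ = 1 := by
      rw [hedef, norm_smul, norm_inv, norm_norm, inv_mul_cancel₀ hx0.ne']
    have hxe : ‖x‖ • e = x := by
      rw [hedef, smul_smul, mul_inv_cancel₀ hx0.ne', one_smul]
    have hcx := hk2 x hx
    have hpp : PP e R ‖x‖ = potential (sphUnif n R) x := by
      unfold PP
      rw [hxe]
    have hRe : ‖R • e‖ = R := by
      rw [norm_smul, he, mul_one, Real.norm_eq_abs, abs_of_pos hR]
    have hppR : PP e R R = sphEnergy n R := hm2 _ hRe
    have hcR : potential (inEn μ) (R • e) = c := hk2 _ (hbd (by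
      rw [mem_sphere_zero_iff_norm]; exact hRe))
    by_cases hcase : ‖x‖ ≤ R - h0
    · have h1 := hmid e R ‖x‖ he hR1.le hRε1 hxδ.le hcase
      have h2 := hcl3 x
      rw [hcx, ← hpp] at h2
      have h3 : PP e R ‖x‖ - c ≤ γ / 4 := by
        refine sq_le_bound (by positivity) (q := q) ?_ (hqle.trans hq1)
        nlinarith
      have h4 : c ≤ Real.exp (-R) + q := by rw [hqdef]; linarith
      linarith
    · rw [not_le] at hcase
      have h1 := (hne e he R ‖x‖ hR (by linarith) hxlt (by linarith)).1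
      have h2 := hcl4 e ‖x‖ he (by linarith) hxlt (by linarith)
      rw [hcR, hxe, hcx, hppR] at h2
      have hh : 0 < R - ‖x‖ := by linarith
      have h3 : PP e R ‖x‖ - sphEnergy n R ≤ κ / 4 * (R - ‖x‖) := by
        refine sq_le_bound (by positivity)
          (q := q * (2 + C2 / R) * (R - ‖x‖) ^ 2) ?_ ?_
        · nlinarith
        · rw [mul_pow]
          have h4 : C2 / R ≤ C2 := div_le_self hC2.le (by linarith)
          have h5 : q * (2 + C2 / R) ≤ (κ / 4) ^ 2 := by
            have h6 : 0 ≤ 2 + C2 / R := by positivity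
            calc q * (2 + C2 / R) ≤ q0 * (2 + C2) := by gcongr
              _ ≤ _ := hq3
          exact mul_le_mul_of_nonneg_right h5 (by positivity)
      have h7 : κ ≤ Real.exp (-(2 * R)) / 2 := by
        rw [hκdef]
        have : Real.exp (-(2 * (Rc + 1))) ≤ Real.exp (-(2 * R)) := Real.exp_le_exp.2 (by linarith)
        linarith
      have h8 : C1 / R * (R - ‖x‖) ^ 2 ≤ κ / 4 * (R - ‖x‖) := by
        have h9 : C1 / R ≤ C1 := div_le_self hC1.le (by linarith)
        have h10 : C1 / R * (R - ‖x‖) ≤ κ / 4 := by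
          calc C1 / R * (R - ‖x‖) ≤ C1 * h0 := by
                have h11 : R - ‖x‖ ≤ h0 := by linarith
                have h12 : 0 ≤ C1 / R := by positivity
                gcongr
            _ ≤ κ / 4 := hh0C
        nlinarith
      have h13 : κ * (R - ‖x‖) ≤ Real.exp (-(2 * R)) * (R - ‖x‖) / 2 := by
        nlinarith
      nlinarith
  have hnull : inEn μ (closedBall 0 δ ∪ sphere 0 R)ᶜ = 0 := by
    refine measure_mono_null (fun x hx => ?_) Measure.measure_compl_support
    rw [mem_compl_iff] at hx ⊢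
    intro hxs
    apply hx
    rcases hsupp x hxs with h | h
    · left; rwa [mem_closedBall_zero_iff]
    · right; rwa [mem_sphere_zero_iff_norm]
  have hdisj : Disjoint (closedBall (0 : En n) δ) (sphere (0 : En n) R) := by
    rw [Set.disjoint_left]
    intro x hx1 hx2
    rw [mem_closedBall_zero_iff] at hx1
    rw [mem_sphere_zero_iff_norm] at hx2
    linarith
  obtain ⟨m, hmdef⟩ : ∃ m, m = (inEn μ).real (closedBall 0 δ) := ⟨_, rfl⟩
  obtain ⟨A, hAdef⟩ : ∃ A, A = (inEn μ).real (sphere 0 R) := ⟨_, rfl⟩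
  have hAm : m + A = 1 := by
    rw [hmdef, hAdef, ← measureReal_union hdisj isClosed_sphere.measurableSet]
    have h1 : (inEn μ) (closedBall 0 δ ∪ sphere 0 R) = 1 := by
      rw [← prob_compl_eq_zero_iff (isClosed_closedBall.measurableSet.union
        isClosed_sphere.measurableSet)]
      exact hnull
    rw [measureReal_def, h1, ENNReal.toReal_one]
  have hm0 : 0 ≤ m := by rw [hmdef]; exact measureReal_nonneg
  have hA0 : 0 ≤ A := by rw [hAdef]; exact measureReal_nonneg
  have hmpos : 0 < m := by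
    refine lt_of_le_of_ne hm0 fun h0m => ?_
    have h1 : (inEn μ) (closedBall 0 δ) = 0 := by
      rw [← measureReal_eq_zero_iff, ← hmdef]
      exact h0m.symm
    have h2 : (inEn μ) (sphere (0 : En n) R)ᶜ = 0 := by
      refine measure_mono_null (t := (closedBall 0 δ ∪ sphere 0 R)ᶜ ∪ closedBall 0 δ)
        (fun x hx => ?_) (by rw [measure_union_null_iff]; exact ⟨hnull, h1⟩)
      by_cases h3 : x ∈ closedBall (0 : En n) δ
      · right; exact h3
      · left
        rw [mem_compl_iff, mem_union, not_or]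
        exact ⟨h3, hx⟩
    have hsph := fSPHU n hn1 R hR (inEn μ) hprob h2 hrot
    have h5 := hk1 0 (mem_closedBall_self hR.le)
    rw [hsph, hm1] at h5
    obtain ⟨x, hx⟩ : (sphere (0 : En n) R).Nonempty := NormedSpace.sphere_nonempty.2 hR.le
    have h6 := hk2 x (hbd hx)
    rw [hsph, hm2 x (by simpa using hx)] at h6
    linarith
  have hmle : m ≤ 1 / 2 := by
    have h1 := hcl3 0
    rw [hm1] at h1
    have h2 : Real.exp (-R) + (Real.exp (-δ) - Real.exp (-R)) * m ≤ potential (inEn μ) 0 := by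
      have h3 : Real.exp (-R) + (Real.exp (-δ) - Real.exp (-R)) * m =
          ∫ y, (Real.exp (-R) + (closedBall (0 : En n) δ).indicator
            (fun _ => Real.exp (-δ) - Real.exp (-R)) y) ∂(inEn μ) := by
        rw [integral_add (integrable_const _)
          ((integrable_const _).indicator isClosed_closedBall.measurableSet),
          integral_const, integral_indicator isClosed_closedBall.measurableSet, integral_const,
          hmdef]
        simp [mul_comm]
      rw [h3]
      unfold potential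
      refine integral_mono_ae ((integrable_const _).add
          ((integrable_const _).indicator isClosed_closedBall.measurableSet)) ?_ ?_
      · refine (integrable_const (1 : ℝ)).mono' (by fun_prop)
          (Filter.Eventually.of_forall fun y => ?_)
        rw [Real.norm_eq_abs, abs_of_pos (Real.exp_pos _), Real.exp_le_one_iff]
        linarith [dist_nonneg (x := (0 : En n)) (y := y)]
      · have h4 : ∀ᵐ y ∂(inEn μ), y ∈ closedBall (0 : En n) R := by
          rw [ae_iff]
          exact hw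
        filter_upwards [h4] with y hy
        rw [mem_closedBall_zero_iff] at hy
        by_cases h5 : y ∈ closedBall (0 : En n) δ
        · rw [indicator_of_mem h5]
          rw [mem_closedBall_zero_iff] at h5
          have : Real.exp (-δ) ≤ Real.exp (-dist 0 y) := by
            apply Real.exp_le_exp.2
            rw [dist_zero_left]
            linarith
          linarith
        · rw [indicator_of_notMem h5]
          have : Real.exp (-R) ≤ Real.exp (-dist 0 y) := by
            apply Real.exp_le_exp.2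
            rw [dist_zero_left]
            linarith
          linarith
    have h3 : (Real.exp (-δ) - Real.exp (-R)) * m ≤ (Real.exp (-δ) - Real.exp (-Rc)) / 2 := by
      have h4 : potential (inEn μ) 0 - Real.exp (-R) ≤ (Real.exp (-δ) - Real.exp (-Rc)) / 2 :=
        sq_le_bound (by positivity) h1 (hqle.trans hq4)
      linarith
    have h5 : Real.exp (-R) ≤ Real.exp (-Rc) := Real.exp_le_exp.2 (by linarith)
    have h6 : (Real.exp (-δ) - Real.exp (-Rc)) * m ≤ (Real.exp (-δ) - Real.exp (-R)) * m :=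
      mul_le_mul_of_nonneg_right (by linarith) hm0
    have h7 : (Real.exp (-δ) - Real.exp (-Rc)) * m ≤ (Real.exp (-δ) - Real.exp (-Rc)) * (1 / 2) := by
      linarith
    exact le_of_mul_le_mul_left h7 hgap
  obtain ⟨s, hs1, hs2, hs3⟩ := hin R hR1.le hR11 (inEn μ) hprob hnull hrot
    (by rw [← hAdef]; linarith) (by rw [← hmdef]; exact hmpos) c hk1 hk2
  refine ⟨s, m, hs1, by linarith, by linarith, hmpos, by linarith, ?_⟩
  rw [← hAdef, ← hmdef] at hs3
  rw [hs3]
  congr 3
  linarith

end Pool.Agent.Helper70.MM
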