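import Pool.Agent.Helper70.MM.Final5

open MeasureTheory Set Metric
open scoped ENNReal Topology
open Pool.Agent.Results.MP_91ee6f_gt

namespace Pool.Agent.Helper70.MM

lemma support_smul_ofReal {n : ℕ} (μ : Measure (En n)) {a : ℝ} (ha : 0 < a) :
    (ENNReal.ofReal a • μ).support = μ.support := by
  ext x
  rw [Measure.mem_support_iff_forall, Measure.mem_support_iff_forall]
  refine forall₂_congr fun U _ => ?_
  rw [Measure.smul_apply, smul_eq_mul]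
  have h1 : ENNReal.ofReal a ≠ 0 := by simpa using ha
  rw [pos_iff_ne_zero, pos_iff_ne_zero, mul_ne_zero_iff]
  exact ⟨fun h => h.2, fun h => ⟨h1, h⟩⟩

/-- The transitions of the support. -/
theorem sphere_transitions_of (hST : STRICT) (hNE : NEARB) (hMID : MID) (hIN : INNER)
    (hCL : CLOSE) (n : ℕ) (hn : 2 ≤ n) :
    ∃ Rc : ℝ, (n : ℝ) - 1 ≤ Rc ∧ Rc ≤ 2 * n * Real.log 5 ∧ sphEnergy n Rc = Real.exp (-Rc) ∧
      (∀ R : ℝ, 0 < R → (sphEnergy n R ≤ Real.exp (-R) ↔ R ≤ Rc) ∧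
        ∃ w : Measure (En n), IsTheMaximising (cBall n R) w ∧
          (R ≤ Rc → w = sphUnif n R ∧ w.support = sph n R ∧
            MaxDiversity (cBall n R) (sphEnergy n R)⁻¹) ∧
          (Rc < R → sph n R ⊆ w.support ∧ (w.support ∩ oBall n R).Nonempty)) ∧
      (4 ≤ n → ∀ η : ℝ, 0 < η → ∃ ε : ℝ, 0 < ε ∧ ∀ R : ℝ, Rc < R → R < Rc + ε →
        ∃ (s m : ℝ) (w : Measure (En n)), 0 < s ∧ s < η ∧ s < R ∧ 0 < m ∧ m < 1 ∧
          w = ENNReal.ofReal (1 - m) • sphUnif n R + ENNReal.ofReal m • sphUnif n s ∧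
          IsTheMaximising (cBall n R) w ∧ w.support = sph n R ∪ sph n s) := by
  obtain ⟨Rc, h1, h2, h3, h4⟩ := sphere_threshold n hn
  refine ⟨Rc, h1, h2, h3, h4, fun hn4 η hη => ?_⟩
  obtain ⟨ε, hε, h5⟩ := two_spheres hST hNE hMID hIN hCL n hn4 Rc (fun R hR => (h4 R hR).1) η hη
  refine ⟨ε, hε, fun R hR1 hR2 => ?_⟩
  have hR : 0 < R := by
    have hn' : (2 : ℝ) ≤ n := by exact_mod_cast hn
    linarith
  obtain ⟨-, w, ⟨μ, hwμ, huniq⟩, -, -⟩ := h4 R hR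
  obtain ⟨s, m, hs1, hs2, hs3, hm1, hm2, hw⟩ := h5 R hR1 hR2 μ ((huniq μ).2 rfl)
  have hw' : w = ENNReal.ofReal (1 - m) • sphUnif n R + ENNReal.ofReal m • sphUnif n s :=
    hwμ.trans hw
  refine ⟨s, m, w, hs1, hs2, hs3, hm1, hm2, hw', ⟨μ, hwμ, huniq⟩, ?_⟩
  rw [hw', Measure.support_add, support_smul_ofReal _ (by linarith),
    support_smul_ofReal _ hm1, (fSPH1 n (by omega) R).2.2 hR, (fSPH1 n (by omega) s).2.2 hs1]
  rfl

end Pool.Agent.Helper70.MM
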