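import Pool.Agent.Helper70.MM.Goals2

open MeasureTheory Set Metric
open scoped ENNReal Topology
open Pool.Agent.Results.MP_91ee6f_gt

namespace Pool.Agent.Helper70.MM

/-- A point of the support of a measure satisfying the Kuhn-Tucker conditions on a set `X` which
contains small segments in all coordinate directions around it has finite singular energy. -/
lemma finite_inv_of_interior (hS : SING) {n : ℕ} (hn : 2 ≤ n) {R : ℝ} (hR : 0 < R)
    {w : Measure (En n)} [IsProbabilityMeasure w] (hw : w (closedBall (0 : En n) R)ᶜ = 0) {c : ℝ}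
    (h1 : ∀ x ∈ closedBall (0 : En n) R, c ≤ potential w x)
    (h2 : ∀ x ∈ w.support, potential w x = c) {p : En n} (hp : p ∈ w.support)
    (hpR : ‖p‖ < R) : ∫⁻ y, (edist p y)⁻¹ ∂w < ∞ := by
  have hmin : ∃ δ > 0, ∀ t : ℝ, |t| < δ → ∀ i : Fin n,
      potential w p ≤ potential w (p + t • (EuclideanSpace.basisFun (Fin n) ℝ) i) := by
    refine ⟨R - ‖p‖, by linarith, fun t ht i => ?_⟩
    rw [h2 p hp]
    apply h1
    rw [mem_closedBall_zero_iff]
    calc ‖p + t • (EuclideanSpace.basisFun (Fin n) ℝ) i‖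
        ≤ ‖p‖ + ‖t • (EuclideanSpace.basisFun (Fin n) ℝ) i‖ := norm_add_le _ _
      _ = ‖p‖ + |t| := by
          rw [norm_smul, (EuclideanSpace.basisFun (Fin n) ℝ).orthonormal.1 i, mul_one,
            Real.norm_eq_abs]
      _ ≤ R := by linarith
  have h := hS n n w inferInstance p _ (EuclideanSpace.basisFun (Fin n) ℝ).orthonormal hmin
  have hle : ∫⁻ y, ENNReal.ofReal (Real.exp (-dist p y)) ∂w ≤ 1 := by
    calc ∫⁻ y, ENNReal.ofReal (Real.exp (-dist p y)) ∂w ≤ ∫⁻ _, 1 ∂w := by
          refine lintegral_mono fun y => ?_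
          rw [← ENNReal.ofReal_one]
          apply ENNReal.ofReal_le_ofReal
          rw [Real.exp_le_one_iff]
          linarith [dist_nonneg (x := p) (y := y)]
      _ = 1 := by simp
  have hk : (1 : ℝ≥0∞) ≤ (n : ℝ≥0∞) - 1 := by
    have : ((n : ℝ≥0∞) - 1) = ((n - 1 : ℕ) : ℝ≥0∞) := by
      rw [ENNReal.natCast_sub, Nat.cast_one]
    rw [this]
    have h3 : 1 ≤ n - 1 := by omega
    exact_mod_cast h3
  have h4 : ∫⁻ y, ENNReal.ofReal (Real.exp (-dist p y)) / edist p y ∂w ≤ 1 := by
    calc ∫⁻ y, ENNReal.ofReal (Real.exp (-dist p y)) / edist p y ∂w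
        ≤ ((n : ℝ≥0∞) - 1) * ∫⁻ y, ENNReal.ofReal (Real.exp (-dist p y)) / edist p y ∂w := by
          conv_lhs => rw [← one_mul (∫⁻ y, _ ∂w)]
          gcongr
      _ ≤ 1 := h.trans hle
  have hae : ∀ᵐ y ∂w, ENNReal.ofReal (Real.exp (-(2 * R))) * (edist p y)⁻¹ ≤
      ENNReal.ofReal (Real.exp (-dist p y)) / edist p y := by
    have : ∀ᵐ y ∂w, y ∈ closedBall (0 : En n) R := by
      rw [ae_iff]
      exact hw
    filter_upwards [this] with y hy
    rw [div_eq_mul_inv]
    gcongr
    rw [mem_closedBall_zero_iff] at hy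
    have : dist p y ≤ ‖p‖ + ‖y‖ := by rw [dist_eq_norm]; exact norm_sub_le _ _
    linarith
  have h5 : ENNReal.ofReal (Real.exp (-(2 * R))) * ∫⁻ y, (edist p y)⁻¹ ∂w ≤ 1 := by
    rw [← lintegral_const_mul _ (by fun_prop)]
    exact (lintegral_mono_ae hae).trans h4
  by_contra hcon
  have h6 : ∫⁻ y, (edist p y)⁻¹ ∂w = ∞ := by
    rw [not_lt, top_le_iff] at hcon
    exact hcon
  rw [h6, ENNReal.mul_top (ENNReal.ofReal_pos.2 (Real.exp_pos _)).ne'] at h5
  simp at h5

/-- The assembly for balls. -/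
theorem finalA (hCRIT : CRIT) (hEX : EXMAX) (hS : SING) (hH : HAUS) (hD : DENS) (hB : BOX)
    (hSPH : SPH1) (hMINP : MINP) (hTHR : THR) (hROT : ROT) (hU : SPHU) (hBD : BDRY)
    (hC : CIRC) (n : ℕ) (hn : 2 ≤ n) :
    ∃ Rc : ℝ, ((n : ℝ) - 1) / Real.sqrt 2 ≤ Rc ∧ Rc ≤ 2 * n * Real.log 5 ∧
      (∀ R : ℝ, 0 < R → (sphEnergy n R ≤ Real.exp (-R) ↔ R ≤ Rc)) ∧
      ∀ R : ℝ, 0 < R → ∃ μ : Measure (closedBall (0 : En n) R),
        IsMaximising μ ∧
        (∀ ν : Measure (closedBall (0 : En n) R), IsMaximising ν → ν = μ) ∧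
        sphere (0 : En n) R ⊆ (inEn μ).support ∧
        (∀ x : En n, ‖x‖ ≤ R → ∃ y ∈ (inEn μ).support,
          dist x y ≤ 1 + n * Real.log (1 + 2 * Real.sqrt n * R)) ∧
        (∀ A : Set (En n), SigmaFiniteLength A → inEn μ (A ∩ ball 0 R) = 0) ∧
        (R ≤ Rc → inEn μ = sphUnif n R ∧ (inEn μ).support = sphere 0 R ∧
          ∀ q : ℝ≥0∞, diversity q μ = (sphEnergy n R)⁻¹) ∧
        (Rc < R → ∀ A : Set (En n), SigmaFiniteLength A →
          ¬ (inEn μ).support ⊆ sphere 0 R ∪ A) ∧
        (n = 2 → (IsFinUnionSpheres (inEn μ).support ↔ R ≤ Rc)) := by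
  have hn1 : 1 ≤ n := by omega
  obtain ⟨Rc, hRc1, hRc2, hRc3⟩ := hTHR n hn
  refine ⟨Rc, hRc1, hRc2, hRc3, fun R hR => ?_⟩
  have hcomp : IsCompact (closedBall (0 : En n) R) := isCompact_closedBall _ _
  obtain ⟨μ, c, hc, hmax, hdiv, huniq, hk1, hk2⟩ := hEX n (closedBall (0 : En n) R) hcomp
    ⟨0, mem_closedBall_self hR.le⟩
  have hemb : MeasurableEmbedding (Subtype.val : closedBall (0 : En n) R → En n) :=
    MeasurableEmbedding.subtype_coe isClosed_closedBall.measurableSet
  have hprobμ : IsProbabilityMeasure μ := hmax.1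
  have hprob : IsProbabilityMeasure (inEn μ) :=
    Measure.isProbabilityMeasure_map hemb.measurable.aemeasurable
  have hw : inEn μ (closedBall (0 : En n) R)ᶜ = 0 := by
    unfold inEn
    rw [hemb.map_apply]
    have : (Subtype.val : closedBall (0 : En n) R → En n) ⁻¹' (closedBall (0 : En n) R)ᶜ = ∅ := by
      ext x
      simp
    rw [this, measure_empty]
  have hrot := hROT n R hR μ hmax
  have hbd := hBD n hn1 R hR (inEn μ) hprob hw hrot c hk1 hk2
  have hnull : ∀ A : Set (En n), SigmaFiniteLength A → inEn μ (A ∩ ball 0 R) = 0 := by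
    intro A hA
    refine hH n (inEn μ) inferInstance (A ∩ ball 0 R) ?_ ?_
    · obtain ⟨T, hT1, hT2⟩ := hA
      exact ⟨T, inter_subset_left.trans hT1, hT2⟩
    · intro p hpA hp
      exact finite_inv_of_interior hS hn hR hw hk1 hk2 hp (by simpa using hpA.2)
  have hsmall : R ≤ Rc → inEn μ = sphUnif n R ∧ (inEn μ).support = sphere 0 R ∧
      ∀ q : ℝ≥0∞, diversity q μ = (sphEnergy n R)⁻¹ := by
    intro hRle
    obtain ⟨hp1, hp2, hp3⟩ := hSPH n hn1 R
    obtain ⟨hm1, hm2, hm3, hm4⟩ := hMINP n hn1 R hR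
    have he := (hRc3 R hR).2 hRle
    have hpos : 0 < sphEnergy n R := by
      obtain ⟨x, hx⟩ : ∃ x : En n, ‖x‖ = R := by
        have : Nontrivial (En n) := by
          have : Nonempty (Fin n) := ⟨⟨0, by omega⟩⟩
          infer_instance
        obtain ⟨x, hx⟩ := NormedSpace.sphere_nonempty (x := (0 : En n)) (r := R) |>.2 hR.le
        exact ⟨x, by simpa using hx⟩
      rw [← hm2 x hx]
      have hint : Integrable (fun y => Real.exp (-dist x y)) (sphUnif n R) := by
        refine (integrable_const (1 : ℝ)).mono' (by fun_prop) (Filter.Eventually.of_forall fun y => ?_)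
        rw [Real.norm_eq_abs, abs_of_pos (Real.exp_pos _), Real.exp_le_one_iff]
        linarith [dist_nonneg (x := x) (y := y)]
      exact integral_exp_pos hint
    have hsupp := hp3 hR
    obtain ⟨μ', h1, h2, h3, h4⟩ := hCRIT n (closedBall (0 : En n) R) hcomp (sphUnif n R) hp1
      (by
        have := hp2 hR.le
        have h7 : ∀ᵐ y ∂(sphUnif n R), y ∈ closedBall (0 : En n) R := by
          filter_upwards [this] with y hy
          rw [mem_closedBall_zero_iff, hy]
        exact h7)
      (sphEnergy n R) hpos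
      (fun x hx => by
        have := hm4 x (mem_closedBall_zero_iff.1 hx)
        rwa [min_eq_right he] at this)
      (fun x hx => by
        rw [hsupp] at hx
        exact hm2 x (by simpa using hx))
    have hμ' : μ' = μ := huniq μ' h2
    rw [hμ'] at h1 h3
    exact ⟨h1, by rw [h1]; exact hsupp, h3⟩
  have hlarge : Rc < R → ∀ A : Set (En n), SigmaFiniteLength A →
      ¬ (inEn μ).support ⊆ sphere 0 R ∪ A := by
    intro hlt A hA hsub
    have h0 : inEn μ (sphere (0 : En n) R)ᶜ = 0 := by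
      have hsub2 : (sphere (0 : En n) R)ᶜ ⊆ (closedBall (0 : En n) R)ᶜ ∪ (inEn μ).supportᶜ ∪
          (A ∩ ball 0 R) := by
        intro x hx
        by_cases h1 : x ∈ closedBall (0 : En n) R
        · by_cases h2 : x ∈ (inEn μ).support
          · right
            rcases hsub h2 with h3 | h3
            · exact absurd h3 hx
            · refine ⟨h3, ?_⟩
              rw [mem_ball]
              rw [mem_closedBall] at h1
              rw [mem_compl_iff, mem_sphere] at hx
              exact lt_of_le_of_ne h1 hx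
          · left; right; exact h2
        · left; left; exact h1
      refine measure_mono_null hsub2 ?_
      rw [measure_union_null_iff, measure_union_null_iff]
      exact ⟨⟨hw, Measure.measure_compl_support⟩, hnull A hA⟩
    have hsph := hU n hn1 R hR (inEn μ) hprob h0 hrot
    obtain ⟨hp1, hp2, hp3⟩ := hSPH n hn1 R
    obtain ⟨hm1, hm2, hm3, hm4⟩ := hMINP n hn1 R hR
    have h5 := hk1 0 (mem_closedBall_self hR.le)
    rw [hsph, hm1] at h5
    have hc' : c = sphEnergy n R := by
      obtain ⟨x, hx⟩ : (sphere (0 : En n) R).Nonempty := by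
        have : Nontrivial (En n) := by
          have : Nonempty (Fin n) := ⟨⟨0, by omega⟩⟩
          infer_instance
        exact NormedSpace.sphere_nonempty.2 hR.le
      have h6 := hk2 x (hbd hx)
      rw [hsph, hm2 x (by simpa using hx)] at h6
      exact h6.symm
    rw [hc'] at h5
    have := (hRc3 R hR).1 h5
    linarith
  refine ⟨μ, hmax, huniq, hbd, ?_, hnull, hsmall, hlarge, ?_⟩
  · intro x hx
    obtain ⟨N, C, hN, hC1, hC2, hC3, hC4⟩ := hB n (-R) (2 * R) (by linarith)
    have hcov : closedBall (0 : En n) R ⊆ ⋃ i, C i := by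
      refine Subset.trans ?_ hC1
      intro y hy i
      rw [mem_closedBall_zero_iff] at hy
      have h1 : |y i| ≤ R := by
        have := PiLp.norm_apply_le y i
        rw [Real.norm_eq_abs] at this
        linarith
      rw [abs_le] at h1
      constructor <;> linarith
    obtain ⟨-, h2⟩ := hD n N (closedBall (0 : En n) R) (inEn μ) hprob hw c hk1 hk2 1 C hcov hC2 hC3
    obtain ⟨y, hy, hxy⟩ := h2 x (mem_closedBall_zero_iff.2 hx)
    refine ⟨y, hy, hxy.trans ?_⟩
    have hN' : (0 : ℝ) < N := by exact_mod_cast hN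
    have h3 : Real.log N ≤ Real.log ((1 + Real.sqrt n * (2 * R)) ^ n) := Real.log_le_log hN' hC4
    rw [Real.log_pow] at h3
    have h4 : 1 + Real.sqrt n * (2 * R) = 1 + 2 * Real.sqrt n * R := by ring
    rw [h4] at h3
    linarith
  · intro hn2
    constructor
    · rintro ⟨F, hF, hFs⟩
      by_contra hlt
      rw [not_le] at hlt
      subst hn2
      refine hlarge hlt (⋃ r ∈ F, sphere (0 : En 2) r) ?_ (by rw [hFs]; exact subset_union_right)
      rcases F.eq_empty_or_nonempty with h | h
      · subst h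
        exact ⟨fun _ => ∅, by simp, by simp⟩
      · obtain ⟨f, hf⟩ := hF.countable.exists_eq_range h
        refine ⟨fun i => sphere (0 : En 2) (f i), ?_, fun i => hC _⟩
        rw [hf]
        intro x hx
        simp only [mem_range, iUnion_exists, iUnion_iUnion_eq', mem_iUnion] at hx ⊢
        exact hx
    · intro hle
      refine ⟨{R}, finite_singleton R, ?_⟩
      rw [(hsmall hle).2.1]
      simp

end Pool.Agent.Helper70.MM
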