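import Pool.Agent.Helper70.MM.Goals2

open MeasureTheory Set Metric
open scoped ENNReal Topology
open Pool.Agent.Results.MP_91ee6f_gt

namespace Pool.Agent.Helper70.MM

lemma continuous_PV (n : ℕ) (ℓ : ℝ) : Continuous (PV n ℓ) := by
  unfold PV
  fun_prop

/-- Minimality of the vertices. -/
lemma PV_min (hF : CFACE) (hE : CEDGE) (hSY : CSYM) (hBA : CBASE) {n : ℕ} (hn : 2 ≤ n) {ℓ : ℝ}
    (hℓ : 0 < ℓ) (hℓ2 : ℓ ≤ 1 / 2)
    (hc : 1 ≤ Real.exp (-ℓ) + ((n : ℝ) - 1) * (Real.exp (-(Real.sqrt 2 * ℓ)) / Real.sqrt 2)) :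
    ∀ x ∈ cube n ℓ, PV n ℓ 0 ≤ PV n ℓ x := by
  obtain ⟨-, -, -, -, hcomp, hne, -⟩ := hBA n ℓ hℓ
  obtain ⟨x0, hx0, hmin⟩ := hcomp.exists_isMinOn hne (continuous_PV n ℓ).continuousOn
  have hmin' : ∀ y ∈ cube n ℓ, PV n ℓ x0 ≤ PV n ℓ y := fun y hy => hmin hy
  have h1 := hF n ℓ hℓ (by nlinarith) x0 hx0 hmin'
  obtain ⟨i, s, hs0, hs1, hs⟩ := (hSY n ℓ (by omega) hℓ).2 x0 hx0 h1
  have h2 := hE n ℓ hn hℓ hℓ2 hc i s hs0 hs1
  intro x hx
  calc PV n ℓ 0 ≤ PV n ℓ (EuclideanSpace.single i s) := h2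
    _ = PV n ℓ x0 := hs.symm
    _ ≤ PV n ℓ x := hmin' x hx

lemma cond_of_three {n : ℕ} (hn : 3 ≤ n) {ℓ : ℝ} (hℓ : 0 < ℓ) (hℓ2 : ℓ ≤ 1 / 2) :
    1 ≤ Real.exp (-ℓ) + ((n : ℝ) - 1) * (Real.exp (-(Real.sqrt 2 * ℓ)) / Real.sqrt 2) := by
  have hn' : (3 : ℝ) ≤ n := by exact_mod_cast hn
  have hs2 : Real.sqrt 2 ^ 2 = 2 := Real.sq_sqrt (by norm_num)
  have hs0 : 0 < Real.sqrt 2 := Real.sqrt_pos.2 (by norm_num)
  have hs1 : Real.sqrt 2 < 1.5 := by nlinarith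
  have he1 : (0.3678 : ℝ) < Real.exp (-1) := by
    rw [Real.exp_neg]
    have := Real.exp_one_lt_d9
    rw [lt_inv_comm₀ (by norm_num) (Real.exp_pos _)]
    norm_num
    linarith
  have h1 : (0.6 : ℝ) ≤ Real.exp (-(1 / 2)) := by
    have h2 : Real.exp (-(1 / 2)) ^ 2 = Real.exp (-1) := by
      rw [← Real.exp_nat_mul]; norm_num
    have h3 := Real.exp_pos (-(1 / 2) : ℝ)
    nlinarith
  have h2 : (0.47 : ℝ) ≤ Real.exp (-(3 / 4)) := by
    have h2 : Real.exp (-(3 / 4)) ^ 4 = Real.exp (-1) ^ 3 := by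
      rw [← Real.exp_nat_mul, ← Real.exp_nat_mul]; norm_num
    have h3 := Real.exp_pos (-(3 / 4) : ℝ)
    by_contra hcon
    rw [not_le] at hcon
    have h4 : Real.exp (-(3 / 4)) ^ 4 < 0.47 ^ 4 := pow_lt_pow_left₀ hcon h3.le (by norm_num)
    have h5 : (0.3678 : ℝ) ^ 3 < Real.exp (-1) ^ 3 := pow_lt_pow_left₀ he1 (by norm_num) (by norm_num)
    rw [h2] at h4
    norm_num at h4 h5
    linarith
  have h3 : (0.6 : ℝ) ≤ Real.exp (-ℓ) := h1.trans (Real.exp_le_exp.2 (by linarith))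
  have h4 : (0.47 : ℝ) ≤ Real.exp (-(Real.sqrt 2 * ℓ)) :=
    h2.trans (Real.exp_le_exp.2 (by nlinarith))
  have h5 : (0.3 : ℝ) ≤ Real.exp (-(Real.sqrt 2 * ℓ)) / Real.sqrt 2 := by
    rw [le_div_iff₀ hs0]
    nlinarith
  nlinarith

lemma le_half_of_cond {ℓ : ℝ}
    (h : 1 ≤ Real.exp (-ℓ) + Real.exp (-(Real.sqrt 2 * ℓ)) / Real.sqrt 2) : ℓ ≤ 1 / 2 := by
  by_contra hcon
  rw [not_le] at hcon
  have hs2 : Real.sqrt 2 ^ 2 = 2 := Real.sq_sqrt (by norm_num)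
  have hs0 : 0 < Real.sqrt 2 := Real.sqrt_pos.2 (by norm_num)
  have hs1 : 1.414 < Real.sqrt 2 := by
    rw [Real.lt_sqrt (by norm_num)]; norm_num
  have he1 : Real.exp (-1) < (0.36788 : ℝ) := by
    rw [Real.exp_neg]
    have := Real.exp_one_gt_d9
    rw [inv_lt_comm₀ (Real.exp_pos _) (by norm_num)]
    norm_num
    linarith
  have h1 : Real.exp (-(1 / 2)) ≤ (0.607 : ℝ) := by
    have h2 : Real.exp (-(1 / 2)) ^ 2 = Real.exp (-1) := by
      rw [← Real.exp_nat_mul]; norm_num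
    have h3 := Real.exp_pos (-(1 / 2) : ℝ)
    nlinarith
  have h2 : Real.exp (-(7 / 10)) ≤ (0.497 : ℝ) := by
    have h2 : Real.exp (-(7 / 10)) ^ 10 = Real.exp (-1) ^ 7 := by
      rw [← Real.exp_nat_mul, ← Real.exp_nat_mul]; norm_num
    by_contra hcon2
    rw [not_le] at hcon2
    have h4 : (0.497 : ℝ) ^ 10 < Real.exp (-(7 / 10)) ^ 10 :=
      pow_lt_pow_left₀ hcon2 (by norm_num) (by norm_num)
    have h5 : Real.exp (-1) ^ 7 < (0.36788 : ℝ) ^ 7 :=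
      pow_lt_pow_left₀ he1 (Real.exp_pos _).le (by norm_num)
    rw [h2] at h4
    norm_num at h4 h5
    linarith
  have h3 : Real.exp (-ℓ) ≤ 0.607 := (Real.exp_le_exp.2 (by linarith)).trans h1
  have h4 : Real.exp (-(Real.sqrt 2 * ℓ)) ≤ 0.497 :=
    (Real.exp_le_exp.2 (by nlinarith)).trans h2
  have h5 : Real.exp (-(Real.sqrt 2 * ℓ)) / Real.sqrt 2 ≤ 0.352 := by
    rw [div_le_iff₀ hs0]
    nlinarith
  linarith

/-- The assembly for cubes. -/
theorem finalB (hCRIT : CRIT) (hEX : EXMAX) (hH : HAUS) (hD : DENS) (hB : BOX)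
    (hF : CFACE) (hE : CEDGE) (hSY : CSYM) (hBA : CBASE) (hN : CNEC) (hSK : CSKEL)
    (hBG : CBIG) (n : ℕ) (hn : 2 ≤ n) (ℓ : ℝ) (hℓ : 0 < ℓ) :
    ∃ μ : Measure (cube n ℓ), IsMaximising μ ∧
      (∀ ν : Measure (cube n ℓ), IsMaximising ν → ν = μ) ∧
      (ℓ ≤ 1 / 2 → (3 ≤ n ∨ 1 ≤ Real.exp (-ℓ) + Real.exp (-(Real.sqrt 2 * ℓ)) / Real.sqrt 2) →
        inEn μ = vertUnif n ℓ ∧ (inEn μ).support = range (vert n ℓ) ∧
        ∀ q : ℝ≥0∞, diversity q μ = 2 ^ n /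
          ∑ k ∈ Finset.range (n + 1), (n.choose k : ℝ) * Real.exp (-(Real.sqrt k * ℓ))) ∧
      (inEn μ = vertUnif n ℓ → 1 ≤ ∑ m ∈ Finset.range n, ((n - 1).choose m : ℝ) *
        (Real.exp (-(Real.sqrt (m + 1) * ℓ)) / Real.sqrt (m + 1))) ∧
      (n = 2 → (inEn μ = vertUnif n ℓ ↔
        1 ≤ Real.exp (-ℓ) + Real.exp (-(Real.sqrt 2 * ℓ)) / Real.sqrt 2)) ∧
      (∀ x ∈ (inEn μ).support, 2 ≤ (Finset.univ.filter fun i => 0 < x i ∧ x i < ℓ).card →
        ((Finset.univ.filter fun i => 0 < x i ∧ x i < ℓ).card : ℝ) < Real.sqrt n * ℓ + 1) ∧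
      (∀ A : Set (En n), SigmaFiniteLength A →
        inEn μ (A ∩ {x | ∃ i j : Fin n, i ≠ j ∧ 0 < x i ∧ x i < ℓ ∧ 0 < x j ∧ x j < ℓ}) = 0) ∧
      (∀ x ∈ cube n ℓ, ∃ y ∈ (inEn μ).support,
        dist x y ≤ 1 + n * Real.log (1 + Real.sqrt n * ℓ)) ∧
      (n = 2 → 10 ≤ ℓ → ∀ A : Set (En n), SigmaFiniteLength A → ¬ (inEn μ).support ⊆ A) := by
  obtain ⟨hb1, hb2, hb3, hb4, hcomp, hne, hb5⟩ := hBA n ℓ hℓ
  obtain ⟨μ, c, hc, hmax, hdiv, huniq, hk1, hk2⟩ := hEX n (cube n ℓ) hcomp hne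
  have hemb : MeasurableEmbedding (Subtype.val : cube n ℓ → En n) :=
    MeasurableEmbedding.subtype_coe hcomp.isClosed.measurableSet
  have hprobμ : IsProbabilityMeasure μ := hmax.1
  have hprob : IsProbabilityMeasure (inEn μ) :=
    Measure.isProbabilityMeasure_map hemb.measurable.aemeasurable
  have hw : inEn μ (cube n ℓ)ᶜ = 0 := by
    unfold inEn
    rw [hemb.map_apply]
    have : (Subtype.val : cube n ℓ → En n) ⁻¹' (cube n ℓ)ᶜ = ∅ := by
      ext x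
      simp
    rw [this, measure_empty]
  have h0v : vert n ℓ ∅ = 0 := by
    unfold vert
    ext i
    simp
  have hPVpos : 0 < PV n ℓ 0 := by
    unfold PV
    exact Finset.sum_pos (fun T _ => Real.exp_pos _) Finset.univ_nonempty
  have hsmall : ℓ ≤ 1 / 2 →
      1 ≤ Real.exp (-ℓ) + ((n : ℝ) - 1) * (Real.exp (-(Real.sqrt 2 * ℓ)) / Real.sqrt 2) →
        inEn μ = vertUnif n ℓ ∧ (inEn μ).support = range (vert n ℓ) ∧
        ∀ q : ℝ≥0∞, diversity q μ = 2 ^ n /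
          ∑ k ∈ Finset.range (n + 1), (n.choose k : ℝ) * Real.exp (-(Real.sqrt k * ℓ)) := by
    intro hℓ2 hcond
    have hmin := PV_min hF hE hSY hBA hn hℓ hℓ2 hcond
    have hcpos : 0 < PV n ℓ 0 / 2 ^ n := by positivity
    obtain ⟨μ', h1, h2, h3, h4⟩ := hCRIT n (cube n ℓ) hcomp (vertUnif n ℓ) hb2
      (by
        have h6 : (vertUnif n ℓ).supportᶜ ⊇ (cube n ℓ)ᶜ := by
          rw [hb4]
          exact compl_subset_compl.2 hb5
        exact measure_mono_null h6 Measure.measure_compl_support)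
      (PV n ℓ 0 / 2 ^ n) hcpos
      (fun x hx => by
        rw [hb3]
        have := hmin x hx
        gcongr)
      (fun x hx => by
        rw [hb4] at hx
        obtain ⟨T, rfl⟩ := hx
        rw [hb3, (hSY n ℓ (by omega) hℓ).1 T])
    have hμ' : μ' = μ := huniq μ' h2
    rw [hμ'] at h1 h3
    refine ⟨h1, by rw [h1]; exact hb4, fun q => ?_⟩
    rw [h3 q, inv_div, hb1]
  have hnec : inEn μ = vertUnif n ℓ → 1 ≤ ∑ m ∈ Finset.range n, ((n - 1).choose m : ℝ) *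
        (Real.exp (-(Real.sqrt (m + 1) * ℓ)) / Real.sqrt (m + 1)) := by
    intro h
    refine hN n ℓ (by omega) hℓ ?_
    intro x hx
    have h1 := hk1 x hx
    have h2 := hk2 (vert n ℓ ∅) (by rw [h, hb4]; exact ⟨∅, rfl⟩)
    rw [h, hb3] at h1 h2
    rw [h0v] at h2
    rw [← h2] at h1
    have h3 : (0 : ℝ) < 2 ^ n := by positivity
    exact (div_le_div_iff_of_pos_right h3).1 h1
  refine ⟨μ, hmax, huniq, ?_, hnec, ?_, ?_, ?_, ?_, ?_⟩
  · intro hℓ2 hor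
    apply hsmall hℓ2
    rcases le_or_gt 3 n with h3 | h3
    · exact cond_of_three h3 hℓ hℓ2
    · rcases hor with h4 | h4
      · omega
      · have hn2 : n = 2 := by omega
        subst hn2
        norm_num
        exact h4
  · intro hn2
    subst hn2
    constructor
    · intro h
      have h1 := hnec h
      rw [Finset.sum_range_succ, Finset.sum_range_one] at h1
      norm_num at h1
      exact h1
    · intro h
      refine (hsmall (le_half_of_cond h) ?_).1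
      norm_num
      exact h
  · intro x hx hcard
    exact (hSK n ℓ hℓ (inEn μ) hprob hw c hk1 hk2 x hx hcard).2
  · intro A hA
    refine hH n (inEn μ) inferInstance _ ?_ ?_
    · obtain ⟨T, hT1, hT2⟩ := hA
      exact ⟨T, inter_subset_left.trans hT1, hT2⟩
    · intro p hpA hp
      refine (hSK n ℓ hℓ (inEn μ) hprob hw c hk1 hk2 p hp ?_).1
      obtain ⟨i, j, hij, h1, h2, h3, h4⟩ := hpA.2
      have hsub : ({i, j} : Finset (Fin n)) ⊆ Finset.univ.filter fun i => 0 < p i ∧ p i < ℓ := by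
        intro k hk
        rw [Finset.mem_insert, Finset.mem_singleton] at hk
        rw [Finset.mem_filter]
        rcases hk with rfl | rfl
        · exact ⟨Finset.mem_univ _, h1, h2⟩
        · exact ⟨Finset.mem_univ _, h3, h4⟩
      have := Finset.card_le_card hsub
      rwa [Finset.card_pair hij] at this
  · intro x hx
    obtain ⟨N, C, hNp, hC1, hC2, hC3, hC4⟩ := hB n 0 ℓ hℓ.le
    have hcov : cube n ℓ ⊆ ⋃ i, C i := by
      refine Subset.trans ?_ hC1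
      intro y hy i
      have := hy i
      constructor <;> linarith [this.1, this.2]
    obtain ⟨-, h2⟩ := hD n N (cube n ℓ) (inEn μ) hprob hw c hk1 hk2 1 C hcov hC2 hC3
    obtain ⟨y, hy, hxy⟩ := h2 x hx
    refine ⟨y, hy, hxy.trans ?_⟩
    have hN' : (0 : ℝ) < N := by exact_mod_cast hNp
    have h3 : Real.log N ≤ Real.log ((1 + Real.sqrt n * ℓ) ^ n) := Real.log_le_log hN' hC4
    rw [Real.log_pow] at h3
    linarith
  · intro hn2 hℓ10 A hA
    subst hn2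
    exact hBG ℓ hℓ10 (inEn μ) hprob hw c hk1 hk2 A hA

end Pool.Agent.Helper70.MM
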