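import Pool.Agent.Helper70.MM.Goals

/-!
Project MM, second part: cubes.  Each `def NAME : Prop` is a goal; its docstring contains the
complete proof.
-/

open MeasureTheory Set Metric
open scoped ENNReal RealInnerProductSpace Topology
open Pool.Agent.Results.MP_91ee6f_gt

namespace Pool.Agent.Helper70.MM

/-- `2ⁿ` times the potential of the uniform measure on the vertices of `[0,ℓ]ⁿ`. -/
noncomputable def PV (n : ℕ) (ℓ : ℝ) (x : En n) : ℝ :=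
  ∑ T : Finset (Fin n), Real.exp (-dist x (vert n ℓ T))

/-- A minimum point of `PV` on the cube has at most one coordinate in the open interval.
PROOF.  Let `F = {i | 0 < x i < ℓ}`, `k = #F ≥ 2`.  For each vertex `w = vert n ℓ T` put
`z = x - w`, `ρ = |z| > 0`, `σ² = ∑ i ∈ F, z_i²`.  The second derivative at `0` of
`t ↦ e^{-|z + t e_i|}` is `e^{-ρ}((ρ⁻² + ρ⁻³) z_i² - ρ⁻¹)`; the sum over `i ∈ F` is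
`e^{-ρ}ρ⁻³((ρ+1)σ² - kρ²) < 0`: we have `0 < σ² ≤ ρ²` and `σ² < kℓ² < k/2`.  If `ρ < 1` then
`(ρ+1)σ² ≤ (ρ+1)ρ² < 2ρ² ≤ kρ²`; if `ρ ≥ 1` then `(ρ+1)σ² < (ρ+1)k/2 ≤ ρk ≤ kρ²`.
Summing over the vertices, `∑ i ∈ F` of the second derivatives of `t ↦ PV (x + t e_i)` at `0` is
negative; but each of these functions has a local minimum at `0` (`x + t e_i` stays in the
cube), so each second derivative is `≥ 0`.  Contradiction. -/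
def CFACE : Prop := ∀ (n : ℕ) (ℓ : ℝ), 0 < ℓ → 2 * ℓ ^ 2 < 1 → ∀ x ∈ cube n ℓ,
  (∀ y ∈ cube n ℓ, PV n ℓ x ≤ PV n ℓ y) → ∀ i j : Fin n, i ≠ j →
  ¬ (0 < x i ∧ x i < ℓ ∧ 0 < x j ∧ x j < ℓ)

/-- PROOF.  Let `D(s)` be the left side: `D 0 = 0`, `D(ℓ-s) = D(s)`, so assume `s ≤ ℓ/2`;
`D'(s) = e^{-s} - e^{-(ℓ-s)} = 2 e^{-ℓ/2} sinh(ℓ/2 - s) ≤ (1 - 2s/ℓ) 2 e^{-ℓ/2} sinh(ℓ/2) =
(1-2s/ℓ)(1-e^{-ℓ})` as `sinh` is convex on `[0,∞)` with `sinh 0 = 0`, and the right side has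
derivative `(1-2s/ℓ)(1-e^{-ℓ})`. -/
def EDGE0 : Prop := ∀ ℓ s : ℝ, 0 < ℓ → 0 ≤ s → s ≤ ℓ →
  1 + Real.exp (-ℓ) - Real.exp (-s) - Real.exp (-(ℓ - s)) ≤
    s * (ℓ - s) * ((1 - Real.exp (-ℓ)) / ℓ)

/-- PROOF.  Work on `ρ ∈ [1, √2]` with `f(ρ) = e^{-ℓρ}/ρ`, `φ(ρ) = 1/(ρ²+1/4)`,
`m(ρ) = f'/φ' = e^{-ℓρ}(1+ℓρ)(ρ²+1/4)²/(2ρ³) > 0`.  `m` is nondecreasing on `[1,√2]`:
`ρ (log m)' = 4ρ²/(ρ²+1/4) - 3 - ℓ²ρ²/(1+ℓρ)`, and with `r = ρ² ∈ [1,2]`, `ℓ ≤ 1/2`: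
`4r/(r+1/4) - 3 = (r-3/4)/(r+1/4) ≥ r/6 ≥ ℓ²r/(1+ℓ) ≥ ℓ²r/(1+ℓρ)` (first: `r² - 5.75 r + 4.5 ≤ 0`
on `[1,2]`; second: `ℓ²/(1+ℓ) ≤ 1/6` for `ℓ ≤ 1/2`).  Let `ρ₀ = √(1+v²) ≤ ρ₁ = √(1+u²) ≤ √2` and
`H = f - m(ρ₁) φ`, `H' = φ' (m - m(ρ₁))` with `φ' < 0`: `H` increases on `[1,ρ₁]`, decreases on
`[ρ₁,√2]`, so `H(ρ₀) ≤ H(ρ₁)`, `H(√2) ≤ H(ρ₁)`.  Hence
`u f(ρ₁) - v f(ρ₀) - (u-v) f(√2) ≥ m(ρ₁) (u φ(ρ₁) - v φ(ρ₀) - (u-v) φ(√2))` (because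
`u - v - (u-v) = 0`), and the bracket is
`u/(u²+5/4) - v/(v²+5/4) - (u-v)/(9/4) = (u-v) p (1/4 - p)/((9/4)(u²+5/4)(v²+5/4)) ≥ 0`,
`p = uv ≤ 1/4` (`u + v = 1`). -/
def DERIV : Prop := ∀ ℓ u v : ℝ, 0 < ℓ → ℓ ≤ 1 / 2 → 0 ≤ v → v ≤ u → u + v = 1 →
  (u - v) * (Real.exp (-(ℓ * Real.sqrt 2)) / Real.sqrt 2) ≤
    u * (Real.exp (-(ℓ * Real.sqrt (1 + u ^ 2))) / Real.sqrt (1 + u ^ 2)) -
      v * (Real.exp (-(ℓ * Real.sqrt (1 + v ^ 2))) / Real.sqrt (1 + v ^ 2))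

/-- PROOF from `DERIV`.  Both sides are symmetric under `s ↦ ℓ - s` and vanish at `s = 0`; so let
`s ≤ ℓ/2` and compare derivatives on `[0,ℓ/2]`: with `g(t) = e^{-√(ℓ²+t²)}`,
`-g'(t) = t e^{-√(ℓ²+t²)}/√(ℓ²+t²)`; the derivative of the right side at `s` is
`g'(s) - g'(ℓ-s)` and with `u = (ℓ-s)/ℓ`, `v = s/ℓ` it is, by `DERIV`,
`≥ (u-v) e^{-√2 ℓ}/√2 = (ℓ-2s) e^{-√2 ℓ}/(√2 ℓ)`, the derivative of the left side. -/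
def EDGE1 : Prop := ∀ ℓ s : ℝ, 0 < ℓ → ℓ ≤ 1 / 2 → 0 ≤ s → s ≤ ℓ →
  s * (ℓ - s) * (Real.exp (-(Real.sqrt 2 * ℓ)) / (Real.sqrt 2 * ℓ)) ≤
    Real.exp (-Real.sqrt (ℓ ^ 2 + s ^ 2)) + Real.exp (-Real.sqrt (ℓ ^ 2 + (ℓ - s) ^ 2)) -
      Real.exp (-ℓ) - Real.exp (-(Real.sqrt 2 * ℓ))

/-- PROOF.  `g(t) = e^{-√(a²+t²)}` is concave on `[0,ℓ]`: with `ρ = √(a²+t²)`,
`g' = -t e^{-ρ}/ρ`, `g'' = -e^{-ρ}ρ⁻³(a² - t²ρ)` and `t²ρ ≤ ℓ² √2 a ≤ a²` because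
`√2 ℓ² ≤ ℓ ≤ a`.  So `g s ≥ (1-s/ℓ) g 0 + (s/ℓ) g ℓ` and `g (ℓ-s) ≥ (s/ℓ) g 0 + (1-s/ℓ) g ℓ`. -/
def EDGE2 : Prop := ∀ a ℓ s : ℝ, 0 < ℓ → ℓ ≤ 1 / 2 → ℓ ≤ a → 0 ≤ s → s ≤ ℓ →
  Real.exp (-a) + Real.exp (-Real.sqrt (a ^ 2 + ℓ ^ 2)) ≤
    Real.exp (-Real.sqrt (a ^ 2 + s ^ 2)) + Real.exp (-Real.sqrt (a ^ 2 + (ℓ - s) ^ 2))

/-- On the edges issuing from the vertex `0`.  PROOF.  Split the sum over `T` according to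
`i ∈ T`: for `T' ∌ i` with `m` elements, `dist (s e_i) (vert T') = √(mℓ² + s²)` and
`dist (s e_i) (vert (insert i T')) = √(mℓ² + (ℓ-s)²)`.  So `PV (s e_i) - PV 0` is the sum over
`T' ⊆ univ \ {i}` of `Δ_m(s) = g(s) + g(ℓ-s) - g(0) - g(ℓ)`, `g(t) = e^{-√(mℓ²+t²)}`.
`m = 0`: `≥ -s(ℓ-s)(1-e^{-ℓ})/ℓ` (`EDGE0`).  `m = 1` (there are `n-1` such `T'`):
`≥ s(ℓ-s) e^{-√2ℓ}/(√2ℓ)` (`EDGE1`).  `m ≥ 2`: `≥ 0` (`EDGE2` with `a = √m ℓ`).  Sum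
`≥ (s(ℓ-s)/ℓ)(-(1-e^{-ℓ}) + (n-1) e^{-√2ℓ}/√2) ≥ 0`. -/
def CEDGE : Prop := ∀ (n : ℕ) (ℓ : ℝ), 2 ≤ n → 0 < ℓ → ℓ ≤ 1 / 2 →
  1 ≤ Real.exp (-ℓ) + ((n : ℝ) - 1) * (Real.exp (-(Real.sqrt 2 * ℓ)) / Real.sqrt 2) →
  ∀ (i : Fin n) (s : ℝ), 0 ≤ s → s ≤ ℓ → PV n ℓ 0 ≤ PV n ℓ (EuclideanSpace.single i s)

/-- Symmetries.  PROOF: the reflection `x_i ↦ ℓ - x_i` for `i ∈ S` is an isometry permuting the
vertices (`vert T ↦ vert (symmDiff T S)`), so `PV` is invariant; a point of the cube with at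
most one coordinate in the open interval `(0,ℓ)` is mapped to a point of the form
`single i s`, `0 ≤ s ≤ ℓ`. -/
def CSYM : Prop := ∀ (n : ℕ) (ℓ : ℝ), 1 ≤ n → 0 < ℓ →
  (∀ T : Finset (Fin n), PV n ℓ (vert n ℓ T) = PV n ℓ 0) ∧
  ∀ x ∈ cube n ℓ, (∀ i j : Fin n, i ≠ j → ¬ (0 < x i ∧ x i < ℓ ∧ 0 < x j ∧ x j < ℓ)) →
    ∃ (i : Fin n) (s : ℝ), 0 ≤ s ∧ s ≤ ℓ ∧ PV n ℓ x = PV n ℓ (EuclideanSpace.single i s)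

/-- Elementary facts.  PROOF: `dist 0 (vert T) = √(#T) ℓ`; `potential` of a finite sum of Dirac
measures; support of a finite sum of Dirac measures; the cube is closed and bounded. -/
def CBASE : Prop := ∀ (n : ℕ) (ℓ : ℝ), 0 < ℓ →
  PV n ℓ 0 = ∑ k ∈ Finset.range (n + 1), (n.choose k : ℝ) * Real.exp (-(Real.sqrt k * ℓ)) ∧
  IsProbabilityMeasure (vertUnif n ℓ) ∧
  (∀ x : En n, potential (vertUnif n ℓ) x = PV n ℓ x / 2 ^ n) ∧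
  (vertUnif n ℓ).support = range (vert n ℓ) ∧ IsCompact (cube n ℓ) ∧ (cube n ℓ).Nonempty ∧
  range (vert n ℓ) ⊆ cube n ℓ

/-- Necessary condition.  PROOF.  Let `e` be the first unit vector.  For `0 < t ≤ ℓ`:
`0 ≤ (PV (t e) - PV 0)/t`; let `t → 0+`.  The vertex `T = ∅` contributes `(e^{-t}-1)/t → -1`,
a vertex `w ≠ 0` contributes the derivative at `0` of `e^{-|w - t e|}`, i.e.
`e^{-|w|} ⟪w,e⟫/|w|`, which is `e^{-√k ℓ}/√k` if `k = #T` and `0 ∈ T`, and `0` if `0 ∉ T`; there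
are `(n-1).choose (k-1)` such `T` (write `k = m+1`). -/
def CNEC : Prop := ∀ (n : ℕ) (ℓ : ℝ), 1 ≤ n → 0 < ℓ →
  (∀ x ∈ cube n ℓ, PV n ℓ 0 ≤ PV n ℓ x) →
  1 ≤ ∑ m ∈ Finset.range n, ((n - 1).choose m : ℝ) *
    (Real.exp (-(Real.sqrt (m + 1) * ℓ)) / Real.sqrt (m + 1))

/-- Skeleton theorem, from `SING`.  PROOF.  Let `x ∈ w.support`, `F = {i | 0 < x i < ℓ}`,
`k = #F ≥ 2`, and apply `SING` at `p = x` with the unit vectors `e_i`, `i ∈ F` (for small `t`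
the points `x + t e_i` lie in the cube, so `potential w x = c ≤ potential w (x + t e_i)`).
Since `e^{-dist x y} ≥ e^{-√n ℓ}` on the cube the inequality shows `∫⁻ (edist x y)⁻¹ dw < ∞`.
Moreover, if `√n ℓ ≤ k - 1`, then for `y` in the cube `dist x y < √n ℓ ≤ k-1` (strict as `x` has a
coordinate in the open interval), so the integrand on the left is `>` the one on the right at
every `y` of the cube, and the right side is finite: contradiction (strict monotonicity of the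
integral, `w ≠ 0`, `w (cube)ᶜ = 0`). -/
def CSKEL : Prop := ∀ (n : ℕ) (ℓ : ℝ), 0 < ℓ → ∀ w : Measure (En n),
  IsProbabilityMeasure w → w (cube n ℓ)ᶜ = 0 → ∀ c : ℝ, (∀ x ∈ cube n ℓ, c ≤ potential w x) →
  (∀ x ∈ w.support, potential w x = c) → ∀ x ∈ w.support,
  (2 ≤ (Finset.univ.filter fun i => 0 < x i ∧ x i < ℓ).card →
    ∫⁻ y, (edist x y)⁻¹ ∂w < ∞ ∧
    ((Finset.univ.filter fun i => 0 < x i ∧ x i < ℓ).card : ℝ) < Real.sqrt n * ℓ + 1)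

/-- Large squares.  PROOF.  Suppose `w.support ⊆ A` with `A` of sigma-finite length.  By
`CSKEL` and `HAUS` (with `A ∩ {x | 0 < x 0 < ℓ ∧ 0 < x 1 < ℓ}`) the open square is `w`-null, so
`w` lives on the boundary of the square, which is covered by `N ≤ 4(ℓ+1)` sets (segments) of
diameter `≤ 1`.  As in `DENS`, `c = ∬ e^{-|x-y|} dw dw ≥ e^{-1}/N ≥ e^{-1}/(4(ℓ+1))` (apply
`DENS` with `X` the boundary of the square), while at the centre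
`c ≤ potential w (ℓ/2,ℓ/2) ≤ e^{-ℓ/2}`.  For `ℓ ≥ 10`:
`4(ℓ+1) e^{1-ℓ/2} < 1` (at `ℓ = 10`: `44 e^{-4} < 0.81`; decreasing). -/
def CBIG : Prop := ∀ ℓ : ℝ, 10 ≤ ℓ → ∀ w : Measure (En 2),
  IsProbabilityMeasure w → w (cube 2 ℓ)ᶜ = 0 → ∀ c : ℝ, (∀ x ∈ cube 2 ℓ, c ≤ potential w x) →
  (∀ x ∈ w.support, potential w x = c) → ∀ A : Set (En 2), SigmaFiniteLength A →
  ¬ w.support ⊆ A

end Pool.Agent.Helper70.MM
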