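import Pool.Agent.Helper70.MM.AllA

/-!
Project MM, fifth part: for `n ≥ 4` the maximising measure of `B_R` has exactly two spheres as its
support for `R` slightly larger than the threshold.  Each `def NAME : Prop` is a goal; its
docstring contains the complete proof.  All results on balls (`fUD`, `fSPH1`, `fSPH2`, `fSPH4`,
`fMINP`, `fQCALL`, `fULOC`, `fTHR`, `fROT`, `fSPHU`, `fBDRY`, `fTH4`, ...) are proved theorems of
`Pool.Agent.Helper70.MM.AllA`, which this file imports.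
-/

open MeasureTheory Set Metric
open scoped ENNReal RealInnerProductSpace Topology
open Pool.Agent.Results.MP_91ee6f_gt
open Pool.Agent.Helper67.MaxMeas (bil)

namespace Pool.Agent.Helper70.MM

/-- squared distance of `y` from the line `ℝ e` (`e` a unit vector) -/
noncomputable def rh {n : ℕ} (e y : En n) : ℝ := ‖y‖ ^ 2 - (inner ℝ y e) ^ 2

/-- potential of `σ_s` at the point `r e` -/
noncomputable def PP {n : ℕ} (e : En n) (s r : ℝ) : ℝ := potential (sphUnif n s) (r • e)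

/-- its derivative in `r` -/
noncomputable def PD {n : ℕ} (e : En n) (s r : ℝ) : ℝ :=
  -∫ y, Real.exp (-dist (r • e) y) * inner ℝ (r • e - y) e / dist (r • e) y ∂(sphUnif n s)

/-- `PD e s r = r * FF e s r` for `r ≠ s` -/
noncomputable def FF {n : ℕ} (e : En n) (s r : ℝ) : ℝ :=
  ∫ y, (rh e y / ((n : ℝ) - 1) * om 2 (dist (r • e) y) - om 1 (dist (r • e) y)) ∂(sphUnif n s)

/-- `∂_r FF e s r = r * GG e s r` for `r ≠ s` -/
noncomputable def GG {n : ℕ} (e : En n) (s r : ℝ) : ℝ :=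
  ∫ y, (om 2 (dist (r • e) y) - 2 * rh e y / ((n : ℝ) - 1) * om 3 (dist (r • e) y) +
    rh e y ^ 2 / (((n : ℝ) - 1) * ((n : ℝ) + 1)) * om 4 (dist (r • e) y)) ∂(sphUnif n s)

/-- Averages over rotations about the axis `ℝ e`, and moments.
PROOF.  `σ_s` is invariant under every linear isometry `g` (`fSPH2`); if `g e = e` then
`dist (r e) (g y) = dist (r e) y`, so `∫ h(d) q(g y) dσ = ∫ h(d) q(y) dσ` for every `q`.  Complete
`e = b_0` to an orthonormal basis `b_0,…,b_{n-1}`.  Isometries fixing `e` and permuting the `b_i`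
(`i ≥ 1`) show that `I_i = ∫ h ⟪y,b_i⟫²`, `K_i = ∫ h ⟪y,b_i⟫⁴`, `J_{ij} = ∫ h ⟪y,b_i⟫²⟪y,b_j⟫²` do
not depend on `i ≠ j ≥ 1`; the sum of the `I_i` is `∫ h rh`.  Rotation by `45°` in the plane of
`b_i, b_j`: `J = ∫ h ((y_i+y_j)²/2)((y_i-y_j)²/2) = ∫ h (y_i²-y_j²)²/4 = (2K-2J)/4`, so `K = 3J`;
expand `∫ h rh² = (n-1) K + (n-1)(n-2) J = (n-1)(n+1) J`.  (`e', e''` are part of such a basis.)
All products are integrable since `‖y‖ = s` a.e.  The moments (no axis fixed): in the same way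
`∫ y_i² = s²/n`, `∫ y_i⁴ = 3 s⁴/(n(n+2))`, `rh = s² - y_0²` a.e. -/
def AVG : Prop := ∀ (n : ℕ), 3 ≤ n → ∀ (e e' e'' : En n), Orthonormal ℝ ![e, e', e''] →
  ∀ s r : ℝ, 0 ≤ s → (∀ h : ℝ → ℝ, Integrable (fun y => h (dist (r • e) y)) (sphUnif n s) →
    ∫ y, h (dist (r • e) y) * (inner ℝ y e') ^ 2 ∂(sphUnif n s) =
      ∫ y, h (dist (r • e) y) * (rh e y / ((n : ℝ) - 1)) ∂(sphUnif n s) ∧
    ∫ y, h (dist (r • e) y) * ((inner ℝ y e') ^ 2 * (inner ℝ y e'') ^ 2) ∂(sphUnif n s) =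
      ∫ y, h (dist (r • e) y) * (rh e y ^ 2 / (((n : ℝ) - 1) * ((n : ℝ) + 1))) ∂(sphUnif n s)) ∧
  ∫ y, rh e y ∂(sphUnif n s) = s ^ 2 * ((n : ℝ) - 1) / n ∧
  ∫ y, rh e y ^ 2 ∂(sphUnif n s) = s ^ 4 * (((n : ℝ) - 1) * ((n : ℝ) + 1)) / (n * ((n : ℝ) + 2))

/-- PROOF.  Cap estimate: for a unit vector `e` and `0 < ε ≤ 1`, `A = {θ ∈ S | |θ - e| ≤ ε}`:
`{t θ | 1-ε < t < 1, θ ∈ A} ⊆ ball e (2ε)` and its volume is `(1 - (1-ε)^n) vol(Ioo 0 1 • A) ≥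
ε vol(Ioo 0 1 • A)`, so the normalised measure of `A` is `≤ (2ε)^n / ε = 2^n ε^(n-1)`
(`Measure.toSphere_apply'`; as in Pool/Agent/Helper15/MM/Sph4.lean).  By the layer cake formula
`∫ 1/|e-θ| dσ_1(θ) ≤ 1 + ∫_1^∞ 2^n λ^(-(n-1)) dλ ≤ 1 + 2^n` (`n ≥ 3`).  Now for
`y = s θ`: `dist (r e) y ^ 2 = (r-s)² + r s |e-θ|²`.  If `r ≥ 2s` or `s ≥ 2r`, the distance is
`≥ max r s / 2`.  Otherwise it is `≥ √(rs) |e-θ| ≥ (max r s/√2) |e-θ|`.  (`sphUnif n s` is the image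
of `sphUnif n 1` under `θ ↦ s θ`, `fSPH2`; at the null point `y = r e` the value is `1/0 = 0`.) -/
def INV : Prop := ∀ (n : ℕ), 3 ≤ n → ∃ C > 0, ∀ (e : En n) (s r : ℝ), ‖e‖ = 1 → 0 ≤ s → 0 ≤ r →
  0 < max r s → Integrable (fun y => 1 / dist (r • e) y) (sphUnif n s) ∧
    ∫ y, 1 / dist (r • e) y ∂(sphUnif n s) ≤ C / max r s

/-- First derivative of the potential, for every `r > 0` (also `r = s`).
PROOF.  `σ_s` has no atom at `r e` (`r > 0`; for `s = r` a single point of the sphere is null: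
by rotation invariance all points of the sphere have the same mass).  For `y ≠ r e`,
`d/dt exp(-|t e - y|) = -exp(-d) ⟪t e - y, e⟫/d`, bounded by `1`; use
`hasDerivAt_integral_of_dominated_loc_of_lip` (the map `t ↦ exp(-|t e - y|)` is `1`-Lipschitz).
Continuity in `r`: dominated convergence (for a sequence `r_k → r` the integrand converges for
`y ≠ r e`).  `PP e 0 r = e^{-r}`. -/
def PDER : Prop := ∀ (n : ℕ), 2 ≤ n → ∀ (e : En n), ‖e‖ = 1 → ∀ s : ℝ, 0 ≤ s →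
  (∀ r : ℝ, 0 < r → HasDerivAt (PP e s) (PD e s r) r ∧ |PD e s r| ≤ 1) ∧
  ContinuousOn (PD e s) (Ioi 0)

/-- Second and third derivatives.
PROOF.  Let `σ = sphUnif n s`, `x = r e`, `δ = |r-s| > 0`, so `dist x y ≥ δ` a.e. (`fSPH1`).  Let
`e'` be a unit vector orthogonal to `x`.  By `fUD` (`j = 0`) applied along `e'`, the second
derivative of `t ↦ U σ 0 (x + t e')` at `0` is `B(x,e') = ∫ (om 2 d ⟪y,e'⟫² - om 1 d) dσ`
(`⟪x-y,e'⟫ = -⟪y,e'⟫`).  `U σ 0` is radial (`fMINP`): `U σ 0 (x + t e') = g(√(r²+t²))`,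
`g = PP e s`, which is differentiable near `r` with continuous derivative (`PDER`); the
derivative in `t` is `g'(√(r²+t²)) t/√(r²+t²)`, whose derivative at `0` is `g'(r)/r`.  So
`g'(r)/r = B(x,e') = FF e s r` (`AVG` with `h = om 2`, bounded on `[δ,∞)`); first claim.  This holds
with any unit vector in place of `e`; so for `e', e''` with `e, e', e''` orthonormal and `|t|`
small the point `x + t e''` is orthogonal to `e'` and
`FF e s (√(r²+t²)) = B(x + t e'', e') = ∫ (om 2 d ⟪y,e'⟫² - om 1 d) dσ`, `d = dist (x+te'') y`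
(`FF` does not depend on the unit vector, by rotation invariance).  The right side is
`U σ' 2 (x + t e'') - U σ 1 (x + t e'')` with the finite measure `σ' = ⟪y,e'⟫² σ`
(`withDensity`); by `fUD` its second derivative in `t` at `0` is
`∫ (om 4 d ⟪y,e''⟫² - om 3 d) ⟪y,e'⟫² dσ - ∫ (om 3 d ⟪y,e''⟫² - om 2 d) dσ`, which is `GG e s r` by
`AVG`.  Also `r ↦ FF e s r` is differentiable near `r` (`fUD` along `e` for `σ'` and `σ`), with
continuous derivative, so as before the second derivative of the left side at `t = 0` is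
`(FF e s)'(r)/r`. -/
def SDER : Prop := ∀ (n : ℕ), 3 ≤ n → ∀ (e : En n), ‖e‖ = 1 → ∀ s r : ℝ, 0 ≤ s → 0 < r → r ≠ s →
  PD e s r = r * FF e s r ∧ HasDerivAt (FF e s) (r * GG e s r) r

/-- Positivity of `GG` at small scale, `n ≥ 4`.
PROOF.  Let `τ = max r s`, `ρ² = rh e y`, `d = dist (r e) y`, `‖y‖ = s` a.e.  `d² = (r - ⟪y,e⟫)² + ρ²`,
so `κ = ρ²/d² ∈ [0,1]`; `0 < |r-s| ≤ d ≤ 2τ`.  By `om_rel`: `d² om 3 d = om 1 d + 3 om 2 d`,
`d⁴ om 4 d = d² om 2 d + 5 om 1 d + 15 om 2 d`.  So the integrand of `GG` is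
`om 2 (1 - 6κ/(n-1) + 15κ²/(n²-1)) + om 1 (-2κ/(n-1) + 5κ²/(n²-1)) + κ² d² om 2/(n²-1)`
`≥ om 2 (1-κ)² - (2/3) om 1`, since `n ≥ 4` and
`(1 - 6κ/(n-1) + 15κ²/(n²-1)) - (1-κ)² = κ(n-4)(2(n+1) - κ(n+4))/(n²-1) ≥ 0` for `κ ∈ [0,1]`.
(i) `∫ om 1 d dσ ≤ ∫ 1/d dσ ≤ C/τ` (`INV`).  (ii) On the cap `{y | dist y (-s e) ≤ s/2}`, which has
measure `≥ 5^{-n}` (`fSPH4` and scaling; for `s = 0` everything), `⟪y,e⟫ ≤ -(7/8)s`, so
`r - ⟪y,e⟫ ≥ (7/8)(r+s)`, `d ≤ r+s`, `1-κ = (r-⟪y,e⟫)²/d² ≥ 49/64`, `(1-κ)² ≥ 1/2`; and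
`om 2 d ≥ om 2 (2τ) = e^{-2τ}(1+2τ)/(8τ³) ≥ 1/(10 τ³)` if `τ ≤ 1/10`.  So
`GG ≥ 5^{-n}/(20 τ³) - (2/3)C/τ ≥ 5^{-n}/(40 τ³)` if also `τ² ≤ 5^{-n}·(3/80)/C`.
(The integrand of `GG` is bounded, hence integrable, because `d ≥ |r-s| > 0` a.e.) -/
def GPOS : Prop := ∀ (n : ℕ), 4 ≤ n → ∃ c > 0, ∃ δ > 0, ∀ (e : En n) (s r : ℝ), ‖e‖ = 1 → 0 ≤ s →
  0 < r → r ≠ s → r ≤ δ → s ≤ δ → c / max r s ^ 3 ≤ GG e s r

/-- Monotonicity of `PD e s r / r` at small scale.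
PROOF.  With `GPOS`: for `r ∈ (0,δ]`, `r ≠ s`: by `SDER`, `(PD e s r/r)' = r GG e s r ≥
c r/(max r s)³ ≥ c r/(max s r₂)³` for `r ≤ r₂`.  `PD e s r / r` is continuous on `(0,∞)` (`PDER`),
so `PD e s r/r - c r²/(2 (max s r₂)³)` is nondecreasing on `[r₁,r₂]`: on each of the two parts cut
by the point `s` the derivative is `≥ 0` in the interior (`monotoneOn_of_deriv_nonneg`). -/
def MONO : Prop := ∀ (n : ℕ), 4 ≤ n → ∃ c > 0, ∃ δ > 0, ∀ (e : En n) (s r₁ r₂ : ℝ), ‖e‖ = 1 →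
  0 ≤ s → s ≤ δ → 0 < r₁ → r₁ ≤ r₂ → r₂ ≤ δ →
  c * (r₂ ^ 2 - r₁ ^ 2) / max s r₂ ^ 3 ≤ PD e s r₂ / r₂ - PD e s r₁ / r₁

/-- The outer sphere near the centre.
PROOF.  For `0 < r ≤ R/2`: `d ≥ R/2`, `0 ≤ rh ≤ R²` a.e., `om 2, om 4 > 0`, `om 3` is decreasing, so
`GG e R r ≥ -2 R² om 3 (R/2)/(n-1)`.  With `SDER`: `FF e R r₂ - FF e R r₁ ≥ -C (r₂²-r₁²)`,
`C = R² om 3 (R/2)/(n-1)`, for `0 < r₁ ≤ r₂ ≤ R/2`; first claim.  Second claim: let `r₁ → 0`;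
`FF e R` is continuous at `0` (the integrand is bounded and continuous for `d ≥ R/2`) and
`FF e R 0 = ∫ (rh/(n-1) om 2 R - om 1 R) = R² om 2 R/n - om 1 R = e^{-R}(R - (n-1))/(n R)` (`AVG`). -/
def OUTER : Prop := ∀ (n : ℕ), 3 ≤ n → ∀ (e : En n), ‖e‖ = 1 → ∀ R : ℝ, 0 < R →
  (∀ r₁ r₂ : ℝ, 0 < r₁ → r₁ ≤ r₂ → r₂ ≤ R / 2 →
    -(R ^ 2 * om 3 (R / 2)) * (r₂ ^ 2 - r₁ ^ 2) ≤ PD e R r₂ / r₂ - PD e R r₁ / r₁) ∧
  (∀ r : ℝ, 0 < r → r ≤ R / 2 →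
    Real.exp (-R) * (R - ((n : ℝ) - 1)) / (n * R) - R ^ 2 * om 3 (R / 2) * r ^ 2 ≤ PD e R r / r)

/-- `R_c(n) > n - 1` strictly.
PROOF.  Let `R = n-1`.  `FF e R 0 = 0` (see `OUTER`) and by continuity of the integrand and `AVG`,
`GG e R r → om 2 R - (2/n) R² om 3 R + R⁴ om 4 R/(n(n+2))` as `r → 0`; multiplied by `e^R R³` this
is `(1+R) - (2/n)(R²+3R+3) + (R³+6R²+15R+15)/(n(n+2)) = (1-n²)/(n(n+2)) < 0` at `R = n-1`.
So `GG e R r < 0` for small `r > 0`, `FF e R r < 0`, `PP e R` is strictly decreasing on `[0,r₀]`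
for some `r₀ > 0`.  Quasi-concavity (`fQCALL` with `j = 0`; `U σ 0 = potential σ`):
`min (PP 0) (PP c) ≤ PP r₀ < PP 0` for `r₀ ≤ c < R`, so `PP c ≤ PP r₀`; let `c → R`:
`sphEnergy n R = PP R ≤ PP r₀ < PP 0 = e^{-R}` (`fMINP`). -/
def STRICT : Prop := ∀ (n : ℕ), 3 ≤ n → sphEnergy n ((n : ℝ) - 1) < Real.exp (-((n : ℝ) - 1))

/-- Cauchy-Schwarz for the energy form.
PROOF.  `0 ≤ bil_sub (w₁ + t w₂, …)`: apply `bil_sub_nonneg` to the finite measures `μ + t α`,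
`ν + t β` and `μ + t β`, `ν + t α` (`t ≥ 0`), expand (`bil` is bilinear and symmetric on finite
measures) and take the discriminant.  Or write `bil μ ν = ∫ charFun μ conj(charFun ν) d cauchyLaw`
(`bil_eq`) and use Cauchy-Schwarz. -/
def CSE : Prop := ∀ (n : ℕ) (μ ν α β : Measure (En n)), IsFiniteMeasure μ → IsFiniteMeasure ν →
  IsFiniteMeasure α → IsFiniteMeasure β →
  (bil μ α - bil μ β - bil ν α + bil ν β) ^ 2 ≤
    (bil μ μ - bil μ ν - bil ν μ + bil ν ν) * (bil α α - bil α β - bil β α + bil β β)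

/-- Near the boundary.
PROOF.  `dist (r e) (R θ)² = (R-r)² + R r |e-θ|²`.  Put `h = R-r ≤ R/2`, `d = |e-θ| ∈ [0,2]`, `m = √(Rr)`,
`R/√2 ≤ m ≤ R - h/2`.  `√(m²d²+h²) ≤ m d + h²/(2 m d)`, so
`exp(-√(m²d²+h²)) ≥ e^{-md}(1 - h²/(2md))`.
(i) `e^{-md} ≥ e^{-Rd}(1 + hd/2)`; integrate over `θ ∈ σ_1`:
`PP e R r ≥ sphEnergy n R + (h/2)∫ d e^{-Rd} - (h²/R) ∫ 1/d`, and `∫ d e^{-Rd} ≥ e^{-2R} ∫ d ≥
e^{-2R}` (`∫ d ≥ ∫ d²/2 = 1`).
(ii) `e^{-Rd} + e^{-rd} = 2 e^{-(R+r)d/2} cosh(hd/2) ≤ 2 e^{-md}(1 + (hd/2)²)` if `hd/2 ≤ 1`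
(`h ≤ 1`), so `e^{-Rd} + e^{-rd} - 2 exp(-√(m²d²+h²)) ≤ 2(hd/2)² + h²/(m d) ≤ h²(2 + 2/(R d))`;
integrate.  `C₀ = ∫ 1/|e-θ| dσ_1 < ∞` by `INV`. -/
def NEARB : Prop := ∀ (n : ℕ), 3 ≤ n → ∃ C > 0, ∀ (e : En n), ‖e‖ = 1 → ∀ R r : ℝ, 0 < R →
  R / 2 ≤ r → r < R → R - r ≤ 1 →
  sphEnergy n R + Real.exp (-(2 * R)) * (R - r) / 2 - C / R * (R - r) ^ 2 ≤ PP e R r ∧
  bil (sphUnif n R) (sphUnif n R) - bil (sphUnif n R) (sphUnif n r) -
    bil (sphUnif n r) (sphUnif n R) + bil (sphUnif n r) (sphUnif n r) ≤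
    (2 + C / R) * (R - r) ^ 2

/-- The middle region.
PROOF.  (a) At `R = Rc`: `PP e Rc r > e^{-Rc}` for `0 < r < Rc`: near `0` by the second part of
`OUTER` (`PD e Rc r > 0` for small `r`, `PP e Rc 0 = e^{-Rc}`), near `Rc` by `NEARB` (i), in between
by quasi-concavity (`fQCALL`, `j = 0`): `PP r ≥ min (PP a) (PP b)` for `a ≤ r ≤ b`.
(b) Let `γ₀ > 0` be the minimum of the continuous function `PP e Rc r - e^{-Rc}` on
`[δ, Rc-h]` (if nonempty).  `|PP e R r - PP e Rc r'| ≤ |R-Rc| + |r-r'|`.  For `R ∈ [Rc,Rc+ε]`,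
`r ∈ [δ,R-h]` take `r' = min r (Rc-h)`: `PP e R r ≥ e^{-Rc} + γ₀ - 2ε ≥ e^{-R} + γ₀/2` if
`ε ≤ γ₀/4` (and `2ε ≤` the slack if `[δ,Rc-h]` is empty or nearly so: one may replace `δ`, `h` by
smaller values at the start so that `δ < Rc - h`).  `PP` does not depend on `e`. -/
def MID : Prop := ∀ (n : ℕ), 3 ≤ n → ∀ Rc : ℝ, (n : ℝ) - 1 < Rc →
  sphEnergy n Rc = Real.exp (-Rc) → ∀ δ h : ℝ, 0 < δ → 0 < h → ∃ γ > 0, ∃ ε > 0,
  ∀ (e : En n) (R r : ℝ), ‖e‖ = 1 → Rc ≤ R → R ≤ Rc + ε → δ ≤ r → r ≤ R - h →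
    Real.exp (-R) + γ ≤ PP e R r

/-- The potential of a rotation invariant measure.
PROOF.  (i) For a unit vector `e`, `r ≥ 0`: `potential w` is radial
(Pool/Agent/Helper27/MM/SPHU.lean, `potential_radial`), so `potential w (r e) =
∫ potential w dσ_r = ∫∫ e^{-|z-y|} dw(y) dσ_r(z) = ∫ potential (σ_r) y dw(y)`
(Fubini; `‖z‖ = r` for `σ_r`-a.e. `z`), and `potential σ_r y = PP e r ‖y‖ = PP e ‖y‖ r`: `potential σ_r` is
radial, and `PP e r s = bil σ_s σ_r = bil σ_r σ_s = PP e s r` (both potentials are radial; `bil`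
is symmetric, see `bilX_comm`).
(ii) differentiate under the integral: `|PD| ≤ 1`, `PDER`;
`hasDerivAt_integral_of_dominated_loc_of_deriv_le`; `y ↦ PP e ‖y‖ r` is continuous
(`PP e s r = ∫ exp(-|r e - s θ|) dσ_1(θ)`), and `y ↦ PD e ‖y‖ r` is a pointwise limit of difference
quotients, so measurable. -/
def RADW : Prop := ∀ (n : ℕ), 2 ≤ n → ∀ w : Measure (En n), IsFiniteMeasure w →
  (∀ g : En n ≃ₗᵢ[ℝ] En n, w.map g = w) → ∀ e : En n, ‖e‖ = 1 →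
  (∀ r : ℝ, 0 ≤ r → potential w (r • e) = ∫ y, PP e ‖y‖ r ∂w) ∧
  (∀ r : ℝ, 0 < r → Integrable (fun y => PD e ‖y‖ r) w ∧
    HasDerivAt (fun r : ℝ => potential w (r • e)) (∫ y, PD e ‖y‖ r ∂w) r)

/-- The inner part is a single sphere.
PROOF.  Constants: `α₀ = min over R ∈ [R₀,R₀+1]` of `e^{-R}(R-(n-1))/(nR)` is `> 0`; `C₁` a bound for
`R² om 3 (R/2)` on `[R₀,R₀+1]`; `c, δ₀` from `MONO`; choose `δ ≤ δ₀`, `δ ≤ R₀/4`, `C₁ δ² ≤ α₀/2`,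
`4 C₁ δ² < α₀ c`.  Write `m = w (closedBall 0 δ) > 0`, `A = w (sphere 0 R) ≥ 1/2` (real numbers);
`w` is carried by the union.  Let `s̄` be the maximum of `‖y‖` over the nonempty compact set
`w.support ∩ closedBall 0 δ` (nonempty: `w (closedBall 0 δ) > 0` and `w (supportᶜ) = 0`).
`f(r) = potential w (r e)`; by `RADW` `f'(r) = A PD e R r + ∫_{closedBall 0 δ} PD e ‖y‖ r dw` and
`‖y‖ ≤ s̄` a.e. on that ball.
Case `s̄ = 0`: `f'(r) = A PD e R r + m PD e 0 r`, `PD e 0 r = -e^{-r}`, and `PD e R r ≤ C r` for small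
`r` (`PD e R r/r` is bounded above near `0`: `PD e R r = r FF e R r` by `SDER`, and `|FF| ≤ R² om 2
(R/2) + om 1 (R/2)`), so `f' < 0` on some `(0,r₀)`, `f(r₀) < f(0) = c` contradicting `c ≤ f`.
Case `s̄ > 0`: `f ≥ c` near `s̄` and `f(s̄) = c` (some support point has norm `s̄`, `f` radial), so
`f'(s̄) = 0`.  Lower bound for `m`: `0 = f'(s̄) ≥ A PD e R s̄ - m ≥ A s̄ (α₀ - C₁ s̄²) - m ≥ A s̄ α₀/2 - m`.
For `0 < r₁ < r₂ ≤ s̄`, by `MONO` (for `s = ‖y‖ ≤ s̄`, `max s r₂ ≤ s̄`) and `OUTER`: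
`f'(r₂)/r₂ - f'(r₁)/r₁ ≥ (m c/s̄³ - A C₁)(r₂²-r₁²)`, and `m c/s̄³ ≥ A α₀ c/(2 s̄²) > A C₁`.  So `f'(r)/r` is
strictly increasing on `(0,s̄]` and vanishes at `s̄`: `f' < 0` on `(0,s̄)`, so `f(r) > f(s̄) = c` for
`0 ≤ r < s̄` and no point of norm `< s̄` is in the support.  So `w` restricted to
`closedBall 0 δ` is carried by the sphere `‖y‖ = s̄`, is rotation invariant, and is
`m σ_{s̄}` (`fSPHU` after normalisation); also `w` restricted to `sphere 0 R` is `A σ_R`. -/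
def INNER : Prop := ∀ (n : ℕ), 4 ≤ n → ∀ R₀ : ℝ, (n : ℝ) - 1 < R₀ → ∀ η : ℝ, 0 < η →
  ∃ δ > 0, δ < η ∧ δ < R₀ / 2 ∧ ∀ R : ℝ, R₀ ≤ R → R ≤ R₀ + 1 → ∀ w : Measure (En n),
  IsProbabilityMeasure w → w (closedBall 0 δ ∪ sphere 0 R)ᶜ = 0 →
  (∀ g : En n ≃ₗᵢ[ℝ] En n, w.map g = w) → 1 / 2 ≤ w.real (sphere 0 R) →
  0 < w.real (closedBall 0 δ) → ∀ c : ℝ,
  (∀ x ∈ closedBall (0 : En n) R, c ≤ potential w x) →
  (∀ x ∈ w.support, potential w x = c) →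
  ∃ s : ℝ, 0 < s ∧ s ≤ δ ∧ w = ENNReal.ofReal (w.real (sphere 0 R)) • sphUnif n R +
    ENNReal.ofReal (w.real (closedBall 0 δ)) • sphUnif n s

/-- The maximiser is close to `σ_R` for `R` near the threshold.
PROOF.  Let `E(τ) = bil τ τ` for signed `τ` (as in `CSE`), `σ = sphUnif n R`, `q = sphEnergy n R - e^{-R}`.
`bil w w = ∫ potential w dw = c`, `bil σ w = ∫ potential w dσ = c` (the sphere is in the support,
`fBDRY`), `bil w σ = ∫ potential σ dw = bil σ w = c`, `bil σ σ = sphEnergy n R`.  By `fMINP`,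
`potential σ ≥ min (e^{-R}) (sphEnergy n R) = e^{-R}` on the ball, so `c = bil w σ ≥ e^{-R}`; so
`0 ≤ E(w-σ) = sphEnergy n R - c ≤ q`.  (i) `CSE` with `α = dirac x`, `β = 0`:
`(potential w x - potential σ x)² ≤ q`.  (ii) `CSE` with `α = σ_R`, `β = σ_r` and `NEARB`: with
`f(r) = potential w (r e)`, `bil w σ_R = f(R)`-type averages (`potential w` is radial, so
`bil σ_r w = f(r)`), `((f(R) - PP e R R) - (f(r) - PP e R r))² ≤ q (2 + C/R)(R-r)²`. -/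
def CLOSE : Prop := ∀ (n : ℕ), 3 ≤ n → ∃ C > 0, ∀ R : ℝ, 0 < R →
  Real.exp (-R) ≤ sphEnergy n R → ∀ w : Measure (En n), IsProbabilityMeasure w →
  w (closedBall 0 R)ᶜ = 0 → (∀ g : En n ≃ₗᵢ[ℝ] En n, w.map g = w) → ∀ c : ℝ,
  (∀ x ∈ closedBall (0 : En n) R, c ≤ potential w x) →
  (∀ x ∈ w.support, potential w x = c) →
  Real.exp (-R) ≤ c ∧ c ≤ sphEnergy n R ∧
  (∀ x : En n, (potential w x - potential (sphUnif n R) x) ^ 2 ≤
    sphEnergy n R - Real.exp (-R)) ∧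
  (∀ (e : En n) (r : ℝ), ‖e‖ = 1 → R / 2 ≤ r → r < R → R - r ≤ 1 →
    ((potential w (R • e) - PP e R R) - (potential w (r • e) - PP e R r)) ^ 2 ≤
      (sphEnergy n R - Real.exp (-R)) * (2 + C / R) * (R - r) ^ 2)

end Pool.Agent.Helper70.MM
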