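import Pool.Agent.Helper70.MM.Defs
import Pool.Agent.Helper67.MaxMeas.Div

open MeasureTheory Set Metric
open scoped ENNReal

namespace Pool.Agent.Helper70.MM

/-- `ω_0(s) = e^{-s}`, `ω_{j+1}(s) = - ω_j'(s)/s` (spherical Bessel type kernels). -/
noncomputable def om : ℕ → ℝ → ℝ
  | 0, s => Real.exp (-s)
  | 1, s => Real.exp (-s) / s
  | (j + 2), s => (om j s + (2 * j + 1) * om (j + 1) s) / s ^ 2

lemma om_zero (s : ℝ) : om 0 s = Real.exp (-s) := by rw [om]

lemma om_one (s : ℝ) : om 1 s = Real.exp (-s) / s := by rw [om]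

lemma om_succ_succ (j : ℕ) (s : ℝ) :
    om (j + 2) s = (om j s + (2 * j + 1) * om (j + 1) s) / s ^ 2 := by rw [om]

lemma om_rel (j : ℕ) {s : ℝ} (hs : 0 < s) :
    s ^ 2 * om (j + 2) s = om j s + (2 * j + 1) * om (j + 1) s := by
  rw [om_succ_succ]
  field_simp

lemma om_pos (j : ℕ) {s : ℝ} (hs : 0 < s) : 0 < om j s := by
  have h : ∀ j, 0 < om j s ∧ 0 < om (j + 1) s := by
    intro j
    induction j with
    | zero =>
      rw [om_zero, om_one]
      have := Real.exp_pos (-s)
      exact ⟨this, by positivity⟩
    | succ j ih =>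
      refine ⟨ih.2, ?_⟩
      rw [om_succ_succ]
      obtain ⟨h1, h2⟩ := ih
      positivity
  exact (h j).1

lemma om_hasDerivAt (j : ℕ) {s : ℝ} (hs : 0 < s) :
    HasDerivAt (om j) (-(s * om (j + 1) s)) s := by
  have hs' := hs.ne'
  have h : ∀ j, HasDerivAt (om j) (-(s * om (j + 1) s)) s ∧
      HasDerivAt (om (j + 1)) (-(s * om (j + 2) s)) s := by
    intro j
    induction j with
    | zero =>
      constructor
      · have h0 : om 0 = fun s => Real.exp (-s) := funext om_zero
        rw [h0, om_one]
        have h1 := (hasDerivAt_neg s).exp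
        refine h1.congr_deriv ?_
        field_simp
      · have h0 : om (0 + 1) = fun s => Real.exp (-s) / s := funext om_one
        rw [h0, om_succ_succ]
        have h1 := ((hasDerivAt_neg s).exp).div (hasDerivAt_id s) hs'
        refine h1.congr_deriv ?_
        simp only [om_zero, om_one, id, zero_add]
        push_cast
        field_simp
        ring
    | succ j ih =>
      refine ⟨ih.2, ?_⟩
      obtain ⟨h1, h2⟩ := ih
      have h0 : om (j + 1 + 1) = fun s => (om j s + (2 * j + 1) * om (j + 1) s) / s ^ 2 :=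
        funext (om_succ_succ j)
      rw [h0]
      have h3 := (h1.add (h2.const_mul (2 * (j : ℝ) + 1))).div (hasDerivAt_pow 2 s)
        (pow_ne_zero 2 hs')
      refine h3.congr_deriv ?_
      simp only [Pi.add_apply]
      rw [om_succ_succ (j + 1), om_succ_succ j]
      push_cast
      field_simp
      ring
  exact (h j).1

lemma om_antitoneOn (j : ℕ) : StrictAntiOn (om j) (Ioi 0) := by
  refine strictAntiOn_of_deriv_neg (convex_Ioi 0) ?_ ?_
  · intro s hs
    exact (om_hasDerivAt j hs).continuousAt.continuousWithinAt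
  · intro s hs
    rw [interior_Ioi] at hs
    rw [(om_hasDerivAt j hs).deriv]
    have := om_pos (j + 1) hs
    have hs' : 0 < s := hs
    have : 0 < s * om (j + 1) s := by positivity
    linarith

lemma om_continuousOn (j : ℕ) : ContinuousOn (om j) (Ioi 0) := fun _ hs =>
  (om_hasDerivAt j hs).continuousAt.continuousWithinAt

lemma om_le (j : ℕ) {s t : ℝ} (hs : 0 < s) (hst : s ≤ t) : om j t ≤ om j s :=
  (om_antitoneOn j).antitoneOn hs (lt_of_lt_of_le hs hst) hst

lemma om_measurable (j : ℕ) : Measurable (om j) := by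
  have h : ∀ j, Measurable (om j) ∧ Measurable (om (j + 1)) := by
    intro j
    induction j with
    | zero =>
      constructor
      · have h0 : om 0 = fun s => Real.exp (-s) := funext om_zero
        rw [h0]; fun_prop
      · have h0 : om (0 + 1) = fun s => Real.exp (-s) / s := funext om_one
        rw [h0]; fun_prop
    | succ j ih =>
      refine ⟨ih.2, ?_⟩
      have h0 : om (j + 1 + 1) = fun s => (om j s + (2 * j + 1) * om (j + 1) s) / s ^ 2 :=
        funext (om_succ_succ j)
      rw [h0]
      have h1 := ih.1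
      have h2 := ih.2
      fun_prop
  exact (h j).1

end Pool.Agent.Helper70.MM
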