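import Pool.Agent.Helper70.MM.AllE
import Pool.Agent.Helper70.MM.AllD
import Pool.Agent.Helper67.MaxMeas.Final

open MeasureTheory Set Metric
open scoped ENNReal Topology
open Pool.Agent.Results.MP_91ee6f_gt

namespace Pool.Agent.Helper70.MM

/-- A sphere is a finite union of spheres. -/
lemma isFinUnionSpheres_sph (n : ℕ) (R : ℝ) : IsFinUnionSpheres (sph n R) :=
  ⟨{R}, Set.finite_singleton R, by simp [sph]⟩

/-- In dimension three the support is not a finite union of spheres as soon as it is not the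
boundary sphere. -/
lemma three_not_fin {R : ℝ} (hR : 0 < R) {w : Measure (En 3)}
    (hw : IsTheMaximising (cBall 3 R) w) (h : (w.support ∩ oBall 3 R).Nonempty) :
    ¬ IsFinUnionSpheres w.support := by
  obtain ⟨Rc, -, -, -, h3⟩ := Pool.Agent.Helper67.MaxMeas.ball_three
  obtain ⟨μ, hμ, h4, h5⟩ := h3 R hR
  obtain ⟨ν, hwν, hν⟩ := hw
  have hνμ : ν = μ := (hμ ν).1 ((hν ν).2 rfl)
  subst hνμ
  rcases le_or_gt R Rc with hle | hlt
  · have h6 := (h4 hle).2.1
    obtain ⟨x, hx1, hx2⟩ := h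
    rw [hwν] at hx1
    have hx3 : x ∈ sphere (0 : E3) R := h6 ▸ hx1
    rw [mem_sphere_zero_iff_norm] at hx3
    unfold oBall at hx2
    rw [mem_ball_zero_iff] at hx2
    linarith
  · intro hfin
    rw [hwν] at hfin
    exact (h5 hlt).1 hfin

/-- The support for all dimensions: threshold, failure of the conjecture in dimensions two and
three, two spheres just above the threshold in dimensions at least four. -/
theorem phases (n : ℕ) (hn : 2 ≤ n) :
    ∃ Rc : ℝ, (n : ℝ) - 1 ≤ Rc ∧ Rc ≤ 2 * n * Real.log 5 ∧ (n = 2 → Rc < 17 / 10) ∧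
      sphEnergy n Rc = Real.exp (-Rc) ∧
      (∀ R : ℝ, 0 < R → (sphEnergy n R ≤ Real.exp (-R) ↔ R ≤ Rc) ∧
        ∃ w : Measure (En n), IsTheMaximising (cBall n R) w ∧
          (R ≤ Rc → w = sphUnif n R ∧ w.support = sph n R ∧
            MaxDiversity (cBall n R) (sphEnergy n R)⁻¹) ∧
          (Rc < R → sph n R ⊆ w.support ∧ (w.support ∩ oBall n R).Nonempty) ∧
          (n ≤ 3 → (IsFinUnionSpheres w.support ↔ R ≤ Rc)) ∧
          (n = 2 → Rc < R → ∀ A : Set (En n), SigmaFiniteLength A → ¬ w.support ⊆ A)) ∧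
      (4 ≤ n → ∀ η : ℝ, 0 < η → ∃ ε : ℝ, 0 < ε ∧ ∀ R : ℝ, Rc < R → R < Rc + ε →
        ∃ (s m : ℝ) (w : Measure (En n)), 0 < s ∧ s < η ∧ s < R ∧ 0 < m ∧ m < 1 ∧
          w = ENNReal.ofReal (1 - m) • sphUnif n R + ENNReal.ofReal m • sphUnif n s ∧
          IsTheMaximising (cBall n R) w ∧ w.support = sph n R ∪ sph n s) := by
  obtain ⟨Rc, h1, h2, h3, h4, h5⟩ := sphere_transitions n hn
  have hn' : (2 : ℝ) ≤ n := by exact_mod_cast hn
  -- the planar case
  have hplane : n = 2 → Rc < 17 / 10 ∧ ∀ R : ℝ, 0 < R → ∀ w : Measure (En n),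
      IsTheMaximising (cBall n R) w → Rc < R →
        ¬ IsFinUnionSpheres w.support ∧
        ∀ A : Set (En n), SigmaFiniteLength A → ¬ w.support ⊆ A := by
    intro hn2
    subst hn2
    obtain ⟨Rc', g1, g2, g3, g4⟩ := disc_conjecture
    have hE : ∀ R : ℝ, 0 < R → circleEnergy R = sphEnergy 2 R := fun R hR => (fCFORM R hR).symm
    have hRc : Rc = Rc' := by
      refine le_antisymm ?_ ?_
      · have := (h4 Rc (by linarith)).1.2 le_rfl
        rw [← hE Rc (by linarith)] at this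
        exact (g4 Rc (by linarith)).1.1 this
      · have := (g4 Rc' (by linarith)).1.2 le_rfl
        rw [hE Rc' (by linarith)] at this
        exact (h4 Rc' (by linarith)).1.1 this
    subst hRc
    refine ⟨g2, fun R hR w hw hlt => ?_⟩
    obtain ⟨-, w', hw', g5, -, g6⟩ := g4 R hR
    obtain ⟨ν, hwν, hν⟩ := hw
    obtain ⟨ν', hwν', hν'⟩ := hw'
    have hνν : ν = ν' := (hν' ν).1 ((hν ν).2 rfl)
    have hww : w = w' := by rw [hwν, hwν', hνν]
    subst hww
    refine ⟨fun hfin => ?_, g6 hlt⟩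
    have := g5.1 hfin
    linarith
  refine ⟨Rc, h1, h2, fun h => (hplane h).1, h3, fun R hR => ⟨(h4 R hR).1, ?_⟩, h5⟩
  obtain ⟨-, w, hw, h6, h7⟩ := h4 R hR
  refine ⟨w, hw, h6, h7, fun hn3 => ⟨fun hfin => ?_, fun hle => ?_⟩, fun hn2 hlt =>
    ((hplane hn2).2 R hR w hw hlt).2⟩
  · by_contra hcon
    rw [not_le] at hcon
    rcases Nat.lt_or_ge n 3 with hlt3 | hge3
    · exact ((hplane (by omega)).2 R hR w hw hcon).1 hfin
    · have hn3' : n = 3 := le_antisymm hn3 hge3
      subst hn3'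
      exact three_not_fin hR hw (h7 hcon).2 hfin
  · rw [(h6 hle).2.1]
    exact isFinUnionSpheres_sph n R

end Pool.Agent.Helper70.MM
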